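import Pool.Agent.Run7.h128.AU.Nondeg

/-!
Vanishing sums of almost units split into vanishing sums of nearly proportional terms.
-/

set_option autoImplicit false

namespace Run7.h128.AU

open NumberField IsDedekindDomain Height Filter Finset
open Pool.Agent.W180.OP (Pl av wt fv_support_finite wt_nonneg)
open Pool.Agent.NH29.GN (ext MovSStm movs gal U1.prod_formula)
open Pool.Agent.NH29.GN.MovD

variable {F : Type} [Field F] [NumberField F]

/-- the quotient of `a` and `b` has small height -/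
def Rel (𝒰 : Ultrafilter ℕ) (A : ℕ → ℝ) (a b : ℕ → F) : Prop :=
  ∃ C : ℝ, ∀ᶠ s in (𝒰 : Filter ℕ), logHeight₁ (a s / b s) ≤ C * A s

theorem Rel.refl (𝒰 : Ultrafilter ℕ) (A : ℕ → ℝ) (a : ℕ → F) : Rel 𝒰 A a a := by
  refine ⟨0, Eventually.of_forall fun s => ?_⟩
  by_cases h : a s = 0
  · rw [h, div_zero, logHeight₁_zero, zero_mul]
  · rw [div_self h, logHeight₁_one, zero_mul]

theorem Rel.symm {𝒰 : Ultrafilter ℕ} {A : ℕ → ℝ} {a b : ℕ → F} (h : Rel 𝒰 A a b) :
    Rel 𝒰 A b a := by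
  obtain ⟨C, hC⟩ := h
  refine ⟨C, ?_⟩
  filter_upwards [hC] with s hs
  rw [← logHeight₁_inv, inv_div]
  exact hs

theorem Rel.trans {𝒰 : Ultrafilter ℕ} {A : ℕ → ℝ} {a b c : ℕ → F} (h : Rel 𝒰 A a b)
    (h' : Rel 𝒰 A b c) (hb : ∀ᶠ s in (𝒰 : Filter ℕ), b s ≠ 0) : Rel 𝒰 A a c := by
  obtain ⟨C, hC⟩ := h
  obtain ⟨C', hC'⟩ := h'
  refine ⟨C + C', ?_⟩
  filter_upwards [hC, hC', hb] with s h1 h2 h3
  have : a s / c s = (a s / b s) * (b s / c s) := by
    field_simp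
  rw [this, add_mul]
  exact (logHeight₁_mul_le _ _).trans (add_le_add h1 h2)

/-- sums of terms near to `b` are near to `b` -/
theorem Rel.sum {ι : Type*} {𝒰 : Ultrafilter ℕ} {A : ℕ → ℝ} (hA : ∀ s, 1 ≤ A s)
    (t : Finset ι) (a : ι → ℕ → F) (b : ℕ → F) (h : ∀ i ∈ t, Rel 𝒰 A (a i) b) :
    Rel 𝒰 A (fun s => ∑ i ∈ t, a i s) b := by
  classical
  have h' : ∀ i : ι, ∃ C : ℝ, i ∈ t → ∀ᶠ s in (𝒰 : Filter ℕ), logHeight₁ (a i s / b s) ≤
      C * A s := by
    intro i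
    by_cases hi : i ∈ t
    · obtain ⟨C, hC⟩ := h i hi
      exact ⟨C, fun _ => hC⟩
    · exact ⟨0, fun hi' => absurd hi' hi⟩
  choose C hC using h'
  set W : ℝ := ((totalWeight F : ℕ) : ℝ) * Real.log t.card with hW
  have hW0 : 0 ≤ W := mul_nonneg (Nat.cast_nonneg _) (Real.log_natCast_nonneg _)
  refine ⟨W + ∑ i ∈ t, C i, ?_⟩
  have hall : ∀ᶠ s in (𝒰 : Filter ℕ), ∀ i ∈ t, logHeight₁ (a i s / b s) ≤ C i * A s := by
    rw [Filter.eventually_all_finset]
    exact fun i hi => hC i hi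
  filter_upwards [hall] with s hs
  rw [Finset.sum_div]
  refine (logHeight₁_sum_le _ _).trans ?_
  rw [add_mul, Finset.sum_mul]
  refine add_le_add ?_ (Finset.sum_le_sum fun i hi => hs i hi)
  exact le_mul_of_one_le_right hW0 (hA s)

theorem Rel.tau_le {𝒰 : Ultrafilter ℕ} {A : ℕ → ℝ} {a b : ℕ → F} (S : Finset (Pl F))
    (hinf : ∀ w, Sum.inl w ∈ S) (h : Rel 𝒰 A a b) (ha : ∀ᶠ s in (𝒰 : Filter ℕ), a s ≠ 0)
    (hb : ∀ᶠ s in (𝒰 : Filter ℕ), b s ≠ 0) :
    ∃ C : ℝ, ∀ᶠ s in (𝒰 : Filter ℕ), tau S (a s / b s) ≤ C * A s := by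
  obtain ⟨C, hC⟩ := h
  refine ⟨2 * C, ?_⟩
  filter_upwards [hC, ha, hb] with s h1 h2 h3
  have := tau_le_height S hinf (div_ne_zero h2 h3)
  nlinarith

section

variable {J : Type} [Fintype J]

/-- the classes of nearly proportional terms -/
def cls (𝒰 : Ultrafilter ℕ) (A : ℕ → ℝ) (z : J → ℕ → F)
    (hz : ∀ᶠ s in (𝒰 : Filter ℕ), ∀ j, z j s ≠ 0) : Setoid J where
  r i j := Rel 𝒰 A (z i) (z j)
  iseqv := ⟨fun i => Rel.refl 𝒰 A (z i), fun h => h.symm, fun {i j k} h h' =>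
    h.trans h' (by
      filter_upwards [hz] with s hs
      exact hs j)⟩

open Classical in
theorem clusters_aux (𝒰 : Ultrafilter ℕ) (S : Finset (Pl F)) (hinf : ∀ w, Sum.inl w ∈ S)
    (z : J → ℕ → F) (A : ℕ → ℝ) (hA : ∀ s, 1 ≤ A s)
    (hz : ∀ᶠ s in (𝒰 : Filter ℕ), ∀ j, z j s ≠ 0)
    (ht : ∃ C : ℝ, ∀ᶠ s in (𝒰 : Filter ℕ), ∀ i j, tau S (z i s / z j s) ≤ C * A s)
    (hsum : ∀ᶠ s in (𝒰 : Filter ℕ), ∑ j, z j s = 0) : ∀ c : Quotient (cls 𝒰 A z hz),
    ∀ᶠ s in (𝒰 : Filter ℕ), ∑ j ∈ univ.filter (fun j => (⟦j⟧ : Quotient (cls 𝒰 A z hz)) = c),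
      z j s = 0 := by
  set Q := Quotient (cls 𝒰 A z hz) with hQ
  set Z : Q → ℕ → F := fun c s => ∑ j ∈ univ.filter (fun j => (⟦j⟧ : Q) = c), z j s with hZ
  intro c
  by_contra hcon
  have hout : ∀ c : Q, Rel 𝒰 A (Z c) (z c.out) := by
    intro c
    refine Rel.sum hA _ _ _ fun j hj => ?_
    have h1 : (⟦j⟧ : Q) = c := (Finset.mem_filter.1 hj).2
    have h2 : (⟦j⟧ : Q) = ⟦c.out⟧ := by rw [h1, Quotient.out_eq]
    exact Quotient.exact h2
  have hzj : ∀ j, ∀ᶠ s in (𝒰 : Filter ℕ), z j s ≠ 0 := fun j => by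
    filter_upwards [hz] with s hs
    exact hs j
  set P : Finset Q := univ.filter fun c => ¬ ∀ᶠ s in (𝒰 : Filter ℕ), Z c s = 0 with hP
  have hPne : ∀ c ∈ P, ∀ᶠ s in (𝒰 : Filter ℕ), Z c s ≠ 0 := fun c hc =>
    Ultrafilter.eventually_not.2 (Finset.mem_filter.1 hc).2
  -- dependent sets of classes
  set Dep : Finset Q → Prop := fun T => T ⊆ P ∧ ∃ d : Q → F, (∃ c ∈ T, d c ≠ 0) ∧
    (∀ c, c ∉ T → d c = 0) ∧ ∀ᶠ s in (𝒰 : Filter ℕ), ∑ c ∈ T, d c * Z c s = 0 with hDep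
  have hDP : Dep P := by
    refine ⟨Finset.Subset.refl _, fun c => if c ∈ P then 1 else 0, ⟨c, ?_, ?_⟩, ?_, ?_⟩
    · rw [hP, Finset.mem_filter]
      exact ⟨Finset.mem_univ _, hcon⟩
    · have hcP : c ∈ P := by rw [hP, Finset.mem_filter]; exact ⟨Finset.mem_univ _, hcon⟩
      show (if c ∈ P then (1 : F) else 0) ≠ 0
      rw [if_pos hcP]
      exact one_ne_zero
    · intro c hc
      exact if_neg hc
    · have hvan : ∀ᶠ s in (𝒰 : Filter ℕ), ∀ c : Q, c ∉ P → Z c s = 0 := by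
        rw [Filter.eventually_all]
        intro c
        by_cases hc : c ∈ P
        · exact Eventually.of_forall fun s h => absurd hc h
        · have : ∀ᶠ s in (𝒰 : Filter ℕ), Z c s = 0 := by
            by_contra h
            exact hc (Finset.mem_filter.2 ⟨Finset.mem_univ _, h⟩)
          filter_upwards [this] with s hs _
          exact hs
      filter_upwards [hsum, hvan] with s h1 h2
      have h3 : ∑ c ∈ P, (if c ∈ P then (1 : F) else 0) * Z c s = ∑ c, Z c s := by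
        rw [← Finset.sum_subset (Finset.subset_univ P) (fun c _ hc => h2 c hc)]
        refine Finset.sum_congr rfl fun c hc => ?_
        rw [if_pos hc, one_mul]
      rw [h3, ← h1]
      exact Finset.sum_fiberwise univ (fun j => (⟦j⟧ : Q)) (fun j => z j s)
  -- a minimal one
  obtain ⟨T, hT, hmin⟩ : ∃ T, Dep T ∧ ∀ T', Dep T' → T.card ≤ T'.card := by
    have hex : ∃ k, ∃ T, Dep T ∧ T.card = k := ⟨_, P, hDP, rfl⟩
    obtain ⟨T, hT, hk⟩ := Nat.find_spec hex
    refine ⟨T, hT, fun T' hT' => ?_⟩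
    rw [hk]
    exact Nat.find_min' hex ⟨T', hT', rfl⟩
  obtain ⟨hTP, d, ⟨c₁, hc₁, hdc₁⟩, hd0, hdsum⟩ := hT
  have hdne : ∀ c ∈ T, d c ≠ 0 := by
    intro c hc h0
    have : Dep (T.erase c) := by
      refine ⟨(Finset.erase_subset _ _).trans hTP, d, ⟨c₁, ?_, hdc₁⟩, ?_, ?_⟩
      · rw [Finset.mem_erase]
        exact ⟨fun h => hdc₁ (h ▸ h0), hc₁⟩
      · intro b hb
        by_cases hbc : b = c
        · rw [hbc, h0]
        · exact hd0 b fun h => hb (Finset.mem_erase.2 ⟨hbc, h⟩)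
      · filter_upwards [hdsum] with s hs
        rw [Finset.sum_erase_eq_sub hc, hs, h0, zero_mul, sub_zero]
    have h1 := hmin _ this
    have h2 := Finset.card_erase_lt_of_mem hc
    omega
  -- the other classes
  have hne : (T.erase c₁).Nonempty := by
    by_contra h
    rw [Finset.not_nonempty_iff_eq_empty] at h
    have h1 : ∀ᶠ s in (𝒰 : Filter ℕ), Z c₁ s = 0 := by
      filter_upwards [hdsum] with s hs
      rw [← Finset.add_sum_erase T _ hc₁, h, Finset.sum_empty, add_zero] at hs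
      exact (mul_eq_zero.1 hs).resolve_left hdc₁
    obtain ⟨s, h2, h3⟩ := (h1.and (hPne c₁ (hTP hc₁))).exists
    exact h3 h2
  obtain ⟨N, hN⟩ : ∃ N, (T.erase c₁).card = N + 1 := ⟨(T.erase c₁).card - 1, by
    have := Finset.card_pos.2 hne
    omega⟩
  have e : Fin (N + 1) ≃ T.erase c₁ := (Fintype.equivFinOfCardEq (by
    rw [Fintype.card_coe, hN])).symm
  set X : ℕ → Fin (N + 1) → F := fun s p => Z (e p : Q) s with hX
  set m : Fin (N + 1) → F := fun p => -(d (e p : Q) / d c₁) with hm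
  have heT : ∀ p, (e p : Q) ∈ T := fun p => Finset.mem_of_mem_erase (e p).2
  have hm0 : ∀ p, m p ≠ 0 := fun p =>
    neg_ne_zero.2 (div_ne_zero (hdne _ (heT p)) hdc₁)
  have hsumT : ∀ (g : Q → F), ∑ p, g (e p : Q) = ∑ c ∈ T.erase c₁, g c := by
    intro g
    rw [← Finset.sum_coe_sort (T.erase c₁) g]
    exact Equiv.sum_comp e (fun c : T.erase c₁ => g c)
  have hz0 : ∀ᶠ s in (𝒰 : Filter ℕ), ext m (X s) none = Z c₁ s := by
    filter_upwards [hdsum] with s hs
    show ∑ p, m p * X s p = _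
    have h1 : ∑ p, m p * X s p = ∑ c ∈ T.erase c₁, -(d c / d c₁) * Z c s :=
      hsumT fun c => -(d c / d c₁) * Z c s
    rw [h1]
    rw [← Finset.add_sum_erase T _ hc₁] at hs
    have h2 : ∑ c ∈ T.erase c₁, -(d c / d c₁) * Z c s =
        -(1 / d c₁) * ∑ c ∈ T.erase c₁, d c * Z c s := by
      rw [Finset.mul_sum]
      refine Finset.sum_congr rfl fun c _ => ?_
      ring
    rw [h2]
    have h3 : ∑ c ∈ T.erase c₁, d c * Z c s = -(d c₁ * Z c₁ s) := by
      linear_combination hs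
    rw [h3]
    field_simp
  have hind : ∀ d' : Fin (N + 1) → F, d' ≠ 0 → ∀ᶠ s in (𝒰 : Filter ℕ),
      ∑ p, d' p * X s p ≠ 0 := by
    intro d' hd'
    apply Ultrafilter.eventually_not.2
    intro hev
    obtain ⟨p0, hp0⟩ := Function.ne_iff.1 hd'
    have : Dep (T.erase c₁) := by
      refine ⟨(Finset.erase_subset _ _).trans hTP,
        fun c => if h : c ∈ T.erase c₁ then d' (e.symm ⟨c, h⟩) else 0, ⟨e p0, (e p0).2, ?_⟩,
        ?_, ?_⟩
      · show (if h : (e p0 : Q) ∈ T.erase c₁ then d' (e.symm ⟨(e p0 : Q), h⟩) else 0) ≠ 0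
        rw [dif_pos (e p0).2]
        simpa using hp0
      · intro c hc
        exact dif_neg hc
      · filter_upwards [hev] with s hs
        have h1 := hsumT fun c => (if h : c ∈ T.erase c₁ then d' (e.symm ⟨c, h⟩) else 0) * Z c s
        refine (h1.symm.trans ?_).trans hs
        refine Finset.sum_congr rfl fun p _ => ?_
        rw [dif_pos (e p).2]
        congr 2
        simp
    have h1 := hmin _ this
    have h2 := Finset.card_erase_lt_of_mem hc₁
    omega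
  -- the classes attached to the coordinates
  set γ : Option (Fin (N + 1)) → Q := fun q => q.elim c₁ (fun p => (e p : Q)) with hγ
  have hγT : ∀ q, γ q ∈ T := by
    intro q
    rcases q with _ | p
    · exact hc₁
    · exact heT p
  have hext : ∀ᶠ s in (𝒰 : Filter ℕ), ∀ q, ext m (X s) q = Z (γ q) s := by
    filter_upwards [hz0] with s hs
    intro q
    rcases q with _ | p
    · exact hs
    · rfl
  have hZne : ∀ q, ∀ᶠ s in (𝒰 : Filter ℕ), Z (γ q) s ≠ 0 := fun q => hPne _ (hTP (hγT q))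
  -- the distances from the units
  have htau : ∃ C : ℝ, ∀ᶠ s in (𝒰 : Filter ℕ), ∀ p q,
      tau S (ext m (X s) p / ext m (X s) q) ≤ C * A s := by
    obtain ⟨C0, hC0⟩ := ht
    choose C1 hC1 using fun q => (hout (γ q)).tau_le S hinf (hZne q) (hzj _)
    refine ⟨∑ q, |C1 q| + |C0| + ∑ q, |C1 q|, ?_⟩
    have hall : ∀ᶠ s in (𝒰 : Filter ℕ), ∀ q, tau S (Z (γ q) s / z (γ q).out s) ≤ C1 q * A s ∧
        Z (γ q) s ≠ 0 := by
      rw [Filter.eventually_all]
      intro q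
      exact (hC1 q).and (hZne q)
    filter_upwards [hall, hC0, hz, hext] with s h1 h2 h3 h4 p q
    rw [h4 p, h4 q]
    have hA1 := hA s
    have h5 : Z (γ p) s / Z (γ q) s = (Z (γ p) s / z (γ p).out s) *
        ((z (γ p).out s / z (γ q).out s) * (Z (γ q) s / z (γ q).out s)⁻¹) := by
      have := (h1 p).2
      have := (h1 q).2
      have := h3 (γ p).out
      have := h3 (γ q).out
      field_simp
    rw [h5]
    refine (tau_mul_le S hinf (div_ne_zero (h1 p).2 (h3 _))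
      (mul_ne_zero (div_ne_zero (h3 _) (h3 _)) (inv_ne_zero (div_ne_zero (h1 q).2 (h3 _))))).trans ?_
    have h6 := tau_mul_le S hinf (div_ne_zero (h3 (γ p).out) (h3 (γ q).out))
      (inv_ne_zero (div_ne_zero (h1 q).2 (h3 (γ q).out)))
    rw [tau_inv] at h6
    have h7 : C1 p ≤ ∑ q, |C1 q| := (le_abs_self _).trans
      (Finset.single_le_sum (f := fun q => |C1 q|) (fun _ _ => abs_nonneg _) (Finset.mem_univ p))
    have h8 : C1 q ≤ ∑ q, |C1 q| := (le_abs_self _).trans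
      (Finset.single_le_sum (f := fun q => |C1 q|) (fun _ _ => abs_nonneg _) (Finset.mem_univ q))
    have h9 := (h1 p).1
    have h10 := (h1 q).1
    have h11 := h2 (γ p).out (γ q).out
    have h12 : C0 ≤ |C0| := le_abs_self _
    nlinarith
  obtain ⟨C2, hC2⟩ := htau
  set A' : ℕ → ℝ := fun s => max C2 1 * A s with hA'
  have hA'1 : ∀ s, 1 ≤ A' s := fun s => by
    have h1 : 1 ≤ max C2 1 := le_max_right _ _
    have h2 := hA s
    show 1 ≤ max C2 1 * A s
    nlinarith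
  obtain ⟨C3, hC3⟩ := nondeg 𝒰 S hinf m hm0 X A' hA'1 hind (by
    filter_upwards [hC2] with s hs p q
    refine (hs p q).trans ?_
    refine mul_le_mul_of_nonneg_right (le_max_left _ _) ?_
    have := hA s
    linarith)
  -- the contradiction
  have hrel : Rel 𝒰 A (Z c₁) (Z (e 0 : Q)) := by
    refine ⟨C3 * max C2 1, ?_⟩
    filter_upwards [hC3, hext] with s h1 h2
    have h3 := h1 none (some 0)
    rw [h2 none, h2 (some 0)] at h3
    rw [mul_assoc]
    exact h3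
  have hfin : Rel 𝒰 A (z c₁.out) (z (e 0 : Q).out) :=
    ((hout c₁).symm.trans hrel (hZne none)).trans (hout _) (hZne (some 0))
  have h1 : (⟦c₁.out⟧ : Q) = ⟦(e 0 : Q).out⟧ := Quotient.sound hfin
  rw [Quotient.out_eq, Quotient.out_eq] at h1
  exact (Finset.mem_erase.1 (e 0).2).1 h1.symm

open Classical in
/-- **A vanishing sum of almost units is a sum of vanishing sums of nearly proportional terms.** -/
theorem clusters (𝒰 : Ultrafilter ℕ) (S : Finset (Pl F)) (hinf : ∀ w, Sum.inl w ∈ S)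
    (z : J → ℕ → F) (A : ℕ → ℝ) (hA : ∀ s, 1 ≤ A s)
    (hz : ∀ᶠ s in (𝒰 : Filter ℕ), ∀ j, z j s ≠ 0)
    (ht : ∃ C : ℝ, ∀ᶠ s in (𝒰 : Filter ℕ), ∀ i j, tau S (z i s / z j s) ≤ C * A s)
    (hsum : ∀ᶠ s in (𝒰 : Filter ℕ), ∑ j, z j s = 0) {κ : Type} (f : J → κ)
    (hf : ∀ i j, Rel 𝒰 A (z i) (z j) → f i = f j) :
    ∀ᶠ s in (𝒰 : Filter ℕ), ∀ k : κ, ∑ j ∈ univ.filter (fun j => f j = k), z j s = 0 := by
  have h := fun c => clusters_aux 𝒰 S hinf z A hA hz ht hsum c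
  rw [← Filter.eventually_all] at h
  filter_upwards [h] with s hs k
  set g : Quotient (cls 𝒰 A z hz) → κ := Quotient.lift f (fun i j hij => hf i j hij) with hg
  rw [← Finset.sum_fiberwise_of_maps_to
    (s := univ.filter fun j => f j = k)
    (t := univ.filter fun c : Quotient (cls 𝒰 A z hz) => g c = k)
    (g := fun j => (⟦j⟧ : Quotient (cls 𝒰 A z hz))) (by
      intro j hj
      rw [Finset.mem_filter] at hj ⊢
      exact ⟨Finset.mem_univ _, hj.2⟩)]
  refine Finset.sum_eq_zero fun c hc => ?_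
  rw [← hs c, Finset.filter_filter]
  refine Finset.sum_congr ?_ fun _ _ => rfl
  ext j
  simp only [Finset.mem_filter, Finset.mem_univ, true_and]
  constructor
  · exact fun h => h.2
  · intro h
    refine ⟨?_, h⟩
    have h1 := (Finset.mem_filter.1 hc).2
    rw [← h] at h1
    exact h1

end

end Run7.h128.AU
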