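import Pool.Agent.Run7.h128.AU.Clusters

/-!
A one-parameter group which separates the classes of nearly proportional numbers.
-/

set_option autoImplicit false

namespace Run7.h128.AU

open NumberField IsDedekindDomain Height Filter Finset
open Pool.Agent.W180.OP (Pl av wt fv_support_finite wt_nonneg)

variable {F : Type} [Field F] [NumberField F]

section

variable {ι : Type} [Fintype ι]

/-- the exponents of the monomials of small height -/
def small (𝒰 : Ultrafilter ℕ) (A : ℕ → ℝ) (I : Finset ι) (y : ι → ℕ → F)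
    (hy : ∀ᶠ s in (𝒰 : Filter ℕ), ∀ i ∈ I, y i s ≠ 0) :
    Submodule ℚ (ι → ℚ) where
  carrier := {w | ∃ M : ℕ, 0 < M ∧ ∃ w' : ι → ℤ, (∀ i, (w' i : ℚ) = M * w i) ∧
    ∃ C : ℝ, ∀ᶠ s in (𝒰 : Filter ℕ), logHeight₁ (∏ i ∈ I, y i s ^ (w' i)) ≤ C * A s}
  zero_mem' := ⟨1, one_pos, 0, by simp, 0, Eventually.of_forall fun s => by
    simp [logHeight₁_one]⟩
  add_mem' := by
    rintro a b ⟨M, hM, w, hw, C, hC⟩ ⟨M', hM', w', hw', C', hC'⟩
    refine ⟨M * M', Nat.mul_pos hM hM', fun i => M' * w i + M * w' i, ?_, M' * C + M * C', ?_⟩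
    · intro i
      push_cast
      rw [hw, hw', Pi.add_apply]
      ring
    · filter_upwards [hC, hC', hy] with s h1 h2 h0
      have e : ∏ i ∈ I, y i s ^ ((M' : ℤ) * w i + M * w' i) =
          (∏ i ∈ I, y i s ^ (w i)) ^ M' * (∏ i ∈ I, y i s ^ (w' i)) ^ M := by
        rw [← Finset.prod_pow, ← Finset.prod_pow, ← Finset.prod_mul_distrib]
        refine Finset.prod_congr rfl fun i hi => ?_
        rw [zpow_add₀ (h0 i hi), mul_comm (M' : ℤ), zpow_mul, zpow_natCast, mul_comm (M : ℤ),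
          zpow_mul, zpow_natCast]
      rw [e]
      refine (logHeight₁_mul_le _ _).trans ?_
      rw [logHeight₁_pow, logHeight₁_pow]
      have h3 : (0 : ℝ) ≤ M := Nat.cast_nonneg M
      have h4 : (0 : ℝ) ≤ M' := Nat.cast_nonneg M'
      nlinarith
  smul_mem' := by
    rintro q a ⟨M, hM, w, hw, C, hC⟩
    refine ⟨M * q.den, Nat.mul_pos hM q.den_pos, fun i => q.num * w i, ?_,
      q.num.natAbs * C, ?_⟩
    · intro i
      push_cast
      rw [hw, Pi.smul_apply, smul_eq_mul]
      have h1 : (q.num : ℚ) = q * q.den := (Rat.mul_den_eq_num q).symm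
      rw [h1]
      ring
    · filter_upwards [hC] with s h1
      have e : ∏ i ∈ I, y i s ^ (q.num * w i) = (∏ i ∈ I, y i s ^ (w i)) ^ q.num := by
        rw [← Finset.prod_zpow]
        refine Finset.prod_congr rfl fun i _ => ?_
        rw [mul_comm, zpow_mul]
      rw [e, logHeight₁_zpow, mul_assoc]
      exact mul_le_mul_of_nonneg_left h1 (Nat.cast_nonneg _)

theorem mem_small {𝒰 : Ultrafilter ℕ} {A : ℕ → ℝ} {I : Finset ι} {y : ι → ℕ → F}
    {hy : ∀ᶠ s in (𝒰 : Filter ℕ), ∀ i ∈ I, y i s ≠ 0} (w : ι → ℤ)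
    (h : ∃ C : ℝ, ∀ᶠ s in (𝒰 : Filter ℕ), logHeight₁ (∏ i ∈ I, y i s ^ (w i)) ≤ C * A s) :
    (fun i => (w i : ℚ)) ∈ small 𝒰 A I y hy :=
  ⟨1, one_pos, w, fun i => by simp, h⟩

open Classical in
theorem rel_of_small {𝒰 : Ultrafilter ℕ} {A : ℕ → ℝ} (hA : ∀ s, 1 ≤ A s) {I : Finset ι}
    {y : ι → ℕ → F} {hy : ∀ᶠ s in (𝒰 : Filter ℕ), ∀ i ∈ I, y i s ≠ 0} {i j : ι} (hi : i ∈ I)
    (hj : j ∈ I)
    (h : (Pi.single i 1 - Pi.single j 1 : ι → ℚ) ∈ small 𝒰 A I y hy) :
    Rel 𝒰 A (y i) (y j) := by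
  by_cases hij : i = j
  · subst hij
    exact Rel.refl _ _ _
  obtain ⟨M, hM, w, hw, C, hC⟩ := h
  have h1 : ∀ k, w k = if k = i then (M : ℤ) else if k = j then -(M : ℤ) else 0 := by
    intro k
    have h2 := hw k
    have h3 : ((w k : ℤ) : ℚ) = ((if k = i then (M : ℤ) else if k = j then -(M : ℤ) else 0 : ℤ) :
        ℚ) := by
      rw [h2, Pi.sub_apply]
      by_cases hki : k = i
      · subst hki
        rw [if_pos rfl, Pi.single_eq_same, Pi.single_eq_of_ne hij]
        simp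
      · rw [if_neg hki, Pi.single_eq_of_ne hki]
        by_cases hkj : k = j
        · subst hkj
          rw [if_pos rfl, Pi.single_eq_same]
          simp
        · rw [if_neg hkj, Pi.single_eq_of_ne hkj]
          simp
    exact_mod_cast h3
  refine ⟨max C 0, ?_⟩
  filter_upwards [hC, hy] with s h2 h0
  have e : ∏ k ∈ I, y k s ^ (w k) = (y i s / y j s) ^ M := by
    have e1 : ∀ k ∈ I, y k s ^ (w k) = (if k = i then y i s ^ M else 1) *
        (if k = j then (y j s ^ M)⁻¹ else 1) := by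
      intro k _
      rw [h1]
      by_cases hki : k = i
      · subst hki
        rw [if_pos rfl, if_pos rfl, if_neg hij, mul_one, zpow_natCast]
      · rw [if_neg hki, if_neg hki, one_mul]
        by_cases hkj : k = j
        · subst hkj
          rw [if_pos rfl, if_pos rfl, zpow_neg, zpow_natCast]
        · rw [if_neg hkj, if_neg hkj, zpow_zero]
    rw [Finset.prod_congr rfl e1, Finset.prod_mul_distrib, Finset.prod_ite_eq' I i,
      Finset.prod_ite_eq' I j, if_pos hi, if_pos hj, div_pow, div_eq_mul_inv]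
  rw [e, logHeight₁_pow] at h2
  have h3 := zero_le_logHeight₁ (y i s / y j s)
  have h4 : (1 : ℝ) ≤ M := by exact_mod_cast hM
  have h5 := hA s
  calc logHeight₁ (y i s / y j s) ≤ M * logHeight₁ (y i s / y j s) := by nlinarith
    _ ≤ C * A s := h2
    _ ≤ max C 0 * A s := mul_le_mul_of_nonneg_right (le_max_left _ _) (by linarith)

open Classical in
/-- the one-parameter group -/
theorem exists_cone {𝒰 : Ultrafilter ℕ} {A : ℕ → ℝ} (hA : ∀ s, 1 ≤ A s) (I : Finset ι)
    (y : ι → ℕ → F) (hy : ∀ᶠ s in (𝒰 : Filter ℕ), ∀ i ∈ I, y i s ≠ 0) :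
    ∃ l : ι → ℕ, (∀ w : ι → ℤ,
      (∃ C : ℝ, ∀ᶠ s in (𝒰 : Filter ℕ), logHeight₁ (∏ i ∈ I, y i s ^ (w i)) ≤ C * A s) →
      ∑ i, w i = 0 → ∑ i, w i * (l i : ℤ) = 0) ∧
      ∀ i ∈ I, ∀ j ∈ I, l i = l j → Rel 𝒰 A (y i) (y j) := by
  set W := small 𝒰 A I y hy with hW
  set P : Finset (ι × ι) := (I ×ˢ I).filter fun p =>
    (Pi.single p.1 1 - Pi.single p.2 1 : ι → ℚ) ∉ W with hP
  obtain ⟨f, hf⟩ := Module.exists_dual_forall_apply_ne_zero (K := ℚ)
    (fun p : P => W.mkQ (Pi.single p.1.1 1 - Pi.single p.1.2 1)) (by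
      intro p h
      rw [Submodule.mkQ_apply, Submodule.Quotient.mk_eq_zero] at h
      exact (Finset.mem_filter.1 p.2).2 h)
  set μ : ι → ℚ := fun i => f (W.mkQ (Pi.single i 1)) with hμ
  have hlin : ∀ w : ι → ℚ, f (W.mkQ w) = ∑ i, w i * μ i := by
    intro w
    have h1 : w = ∑ i, w i • (Pi.single i 1 : ι → ℚ) := by
      funext k
      rw [Finset.sum_apply, Finset.sum_eq_single k]
      · simp
      · intro b _ hb
        rw [Pi.smul_apply, Pi.single_eq_of_ne (Ne.symm hb), smul_zero]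
      · intro h
        exact absurd (Finset.mem_univ _) h
    conv_lhs => rw [h1]
    rw [map_sum, map_sum]
    refine Finset.sum_congr rfl fun i _ => ?_
    rw [map_smul, map_smul, smul_eq_mul]
  -- clear the denominators
  set D : ℕ := ∏ i, (μ i).den with hD
  have hD0 : (D : ℚ) ≠ 0 := by
    rw [hD]
    exact_mod_cast Finset.prod_ne_zero_iff.2 fun i _ => (μ i).den_ne_zero
  have hint : ∀ i, ∃ n : ℤ, (n : ℚ) = D * μ i := by
    intro i
    obtain ⟨c, hc⟩ : (μ i).den ∣ D := Finset.dvd_prod_of_mem _ (Finset.mem_univ i)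
    refine ⟨c * (μ i).num, ?_⟩
    rw [hc]
    push_cast
    have h1 : ((μ i).num : ℚ) = μ i * (μ i).den := (Rat.mul_den_eq_num _).symm
    rw [h1]
    ring
  choose n hn using hint
  set c : ℕ := ∑ i, (n i).natAbs with hc
  have hpos : ∀ i, 0 ≤ n i + c := by
    intro i
    have h1 : (n i).natAbs ≤ c := Finset.single_le_sum (f := fun i => (n i).natAbs)
      (fun _ _ => Nat.zero_le _) (Finset.mem_univ i)
    omega
  refine ⟨fun i => (n i + c).toNat, ?_, ?_⟩
  · intro w hw hw0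
    have h1 : f (W.mkQ fun i => (w i : ℚ)) = 0 := by
      have := mem_small (hy := hy) w hw
      rw [← hW] at this
      rw [(Submodule.Quotient.mk_eq_zero W).2 this |> fun h => (Submodule.mkQ_apply W _).trans h,
        map_zero]
    rw [hlin] at h1
    have h2 : ∑ i, w i * n i = 0 := by
      have h3 : ((∑ i, w i * n i : ℤ) : ℚ) = 0 := by
        push_cast
        rw [← mul_zero (D : ℚ), ← h1, Finset.mul_sum]
        refine Finset.sum_congr rfl fun i _ => ?_
        rw [hn]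
        ring
      exact_mod_cast h3
    calc ∑ i, w i * (((n i + c).toNat : ℕ) : ℤ) = ∑ i, (w i * n i + c * w i) := by
          refine Finset.sum_congr rfl fun i _ => ?_
          rw [Int.toNat_of_nonneg (hpos i)]
          ring
      _ = 0 := by
          rw [Finset.sum_add_distrib, ← Finset.mul_sum, hw0, h2, mul_zero, add_zero]
  · intro i hi j hj hij
    by_contra hcon
    have h1 : (Pi.single i 1 - Pi.single j 1 : ι → ℚ) ∉ W := fun h =>
      hcon (rel_of_small hA hi hj h)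
    have h2 := hf ⟨(i, j), Finset.mem_filter.2 ⟨Finset.mem_product.2 ⟨hi, hj⟩, h1⟩⟩
    apply h2
    show f (W.mkQ (Pi.single i 1 - Pi.single j 1)) = 0
    rw [map_sub, map_sub]
    have h3 : n i = n j := by
      have h4 := hpos i
      have h5 := hpos j
      have h6 : (n i + c).toNat = (n j + c).toNat := hij
      omega
    have h4 : (D : ℚ) * μ i = D * μ j := by rw [← hn, ← hn, h3]
    exact sub_eq_zero.2 (mul_left_cancel₀ hD0 h4)

end

end Run7.h128.AU
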