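import Pool.Agent.Run7.h128.AU.Main

/-!
Sums of almost units on hyperbolic varieties, and the converse for varieties with a rational curve.
-/

set_option autoImplicit false
set_option linter.unusedSectionVars false

namespace Run7.h128.AU

open NumberField IsDedekindDomain Height Filter Finset MvPolynomial
open Pool.Agent.H458.Sp

variable {K : Type} [Field K] [NumberField K]

/-- a hyperbolic variety contains no nonconstant parametrized curve -/
theorem hyper_const {n m : ℕ} (e : Fin m → ℕ) (G : Fin m → MvPolynomial (Fin (n + 1)) K)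
    (hG : ∀ k, (G k).IsHomogeneous (e k)) (σ : K →+* ℂ)
    (hyp : BrodyHyperbolic (Set.range fun k => MvPolynomial.map σ (G k)))
    (q : Fin (n + 1) → Polynomial K) (hq : ∀ k, aeval q (G k) = 0) (a b : Fin (n + 1)) :
    q a * Polynomial.C ((q b).eval 1) = q b * Polynomial.C ((q a).eval 1) := by
  have hσ : Function.Injective σ := σ.injective
  apply Polynomial.map_injective σ hσ
  apply Polynomial.funext
  intro z
  have h := Pool.Agent.TH409.SH.no_curveC' (Set.range fun k => MvPolynomial.map σ (G k)) (by
      rintro _ ⟨k, rfl⟩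
      exact ⟨e k, (hG k).map _⟩) hyp (fun i => (q i).map σ) (by
      rintro _ ⟨k, rfl⟩
      have h1 := hq k
      have h2 := congrArg (Polynomial.mapRingHom σ) h1
      rw [map_zero, aeval_def, MvPolynomial.hom_eval₂] at h2
      show aeval _ (MvPolynomial.map σ (G k)) = 0
      rw [aeval_def, MvPolynomial.eval₂_map, ← h2]
      congr 1
      ext a
      simp) a b z (σ 1)
  simp only [Polynomial.eval_map] at h
  simp only [Polynomial.map_mul, Polynomial.map_C, Polynomial.eval_mul, Polynomial.eval_C,
    Polynomial.eval_map]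
  rw [Polynomial.eval₂_at_apply, Polynomial.eval₂_at_apply] at h
  exact h

/-- on a nonconstant curve the heights are unbounded along every infinite set of parameters -/
theorem curve_unbounded {n : ℕ} (q : Fin (n + 1) → Polynomial K)
    (hq : ∃ i j a b, (q i).eval a * (q j).eval b ≠ (q j).eval a * (q i).eval b)
    (U : Set K) (hU : U.Infinite) (B : ℝ) :
    ∃ t ∈ U, (fun i => (q i).eval t) ≠ 0 ∧ B < logHeight (fun i => (q i).eval t) := by
  classical
  by_contra hcon
  push Not at hcon
  obtain ⟨i1, i2, a0, b0, hi⟩ := hq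
  have hne : ∃ i0, q i0 ≠ 0 := by
    by_contra h
    push Not at h
    apply hi
    rw [h i1, h i2]
  obtain ⟨i0, hi0⟩ := hne
  have hT0 : {t : K | (q i0).eval t = 0}.Finite := by
    have : {t : K | (q i0).eval t = 0} = {t | (q i0).IsRoot t} := rfl
    rw [this]
    exact Polynomial.finite_setOfPred_isRoot hi0
  have hfib : ∀ y : Fin (n + 1) → K, y ≠ 0 →
      {t : K | ∀ i j, (q i).eval t * y j = (q j).eval t * y i}.Finite := by
    intro y hy
    have h1 : ∃ i j, q i * Polynomial.C (y j) ≠ q j * Polynomial.C (y i) := by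
      by_contra h
      push Not at h
      obtain ⟨j0, hj0⟩ := Function.ne_iff.1 hy
      simp only [Pi.zero_apply] at hj0
      have h2 : ∀ i, q i = q j0 * Polynomial.C (y i / y j0) := by
        intro i
        have h3 := h i j0
        have h4 : q i * Polynomial.C (y j0) * Polynomial.C (y j0)⁻¹ =
            q j0 * Polynomial.C (y i) * Polynomial.C (y j0)⁻¹ := by rw [h3]
        rw [mul_assoc, mul_assoc, ← Polynomial.C_mul, ← Polynomial.C_mul, mul_inv_cancel₀ hj0,
          Polynomial.C_1, mul_one, ← div_eq_mul_inv] at h4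
        exact h4
      apply hi
      rw [h2 i1, h2 i2]
      simp only [Polynomial.eval_mul, Polynomial.eval_C]
      ring
    obtain ⟨i, j, hij⟩ := h1
    refine (Polynomial.finite_setOfPred_isRoot (sub_ne_zero.2 hij)).subset ?_
    intro t ht
    have := ht i j
    show Polynomial.eval t _ = 0
    rw [Polynomial.eval_sub, Polynomial.eval_mul, Polynomial.eval_mul, Polynomial.eval_C,
      Polynomial.eval_C, this, sub_self]
  have hfin := Pool.Agent.TH409.SH.northcott_proj (n := n) K (Real.exp B)
  have hall : U ⊆ {t : K | (q i0).eval t = 0} ∪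
      ⋃ P ∈ {P : Projectivization K (Fin (n + 1) → K) | ∃ (x : Fin (n + 1) → K) (h : x ≠ 0),
        P = Projectivization.mk K x h ∧ mulHeight x ≤ Real.exp B},
        {t : K | ∀ i j, (q i).eval t * P.rep j = (q j).eval t * P.rep i} := by
    intro t htU
    by_cases h1 : (q i0).eval t = 0
    · exact Or.inl h1
    · right
      have h3 : (fun i => (q i).eval t) ≠ 0 := by
        intro h0
        exact h1 (congrFun h0 i0)
      have h4 := hcon t htU h3
      rw [Set.mem_iUnion₂]
      refine ⟨Projectivization.mk K _ h3, ⟨_, h3, rfl, ?_⟩, ?_⟩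
      · rw [logHeight_eq_log_mulHeight] at h4
        exact (Real.log_le_iff_le_exp (mulHeight_pos _)).1 h4
      · obtain ⟨a, ha⟩ := Projectivization.exists_smul_eq_mk_rep K (fun i => (q i).eval t) h3
        intro i j
        rw [← ha]
        show (q i).eval t * ((a : K) • (fun i => (q i).eval t)) j =
          (q j).eval t * ((a : K) • (fun i => (q i).eval t)) i
        simp only [Pi.smul_apply, smul_eq_mul]
        ring
  refine hU ((hT0.union (hfin.biUnion ?_)).subset hall)
  intro P _
  exact hfib P.rep P.rep_nonzero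

/-- **The converse.** -/
theorem converse {n m : ℕ} (G : Fin m → MvPolynomial (Fin (n + 1)) K)
    (q : Fin (n + 1) → Polynomial K) (hq : ∀ k, aeval q (G k) = 0)
    (hnc : ∃ i j a b, (q i).eval a * (q j).eval b ≠ (q j).eval a * (q i).eval b) :
    ∃ (S : Finset (FinitePlace K)) (r : ℕ), ∀ B : ℝ, ∃ y : Fin r → Fin (n + 1) → K,
      (fun a => ∑ j, y j a) ≠ 0 ∧ (∀ k, eval (fun a => ∑ j, y j a) (G k) = 0) ∧
      (outside S fun p : Fin r × Fin (n + 1) => y p.1 p.2) = 0 ∧
      B < logHeight (fun a => ∑ j, y j a) := by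
  classical
  set N : ℕ := Finset.univ.sup (fun i => (q i).natDegree) + 1 with hN
  have hqc : ∀ (i : Fin (n + 1)) (t : K),
      (q i).eval t = ∑ j : Fin N, (q i).coeff j * t ^ (j : ℕ) := by
    intro i t
    have hlt : (q i).natDegree < N := by
      have := Finset.le_sup (f := fun i => (q i).natDegree) (Finset.mem_univ i)
      omega
    rw [Polynomial.eval_eq_sum_range' hlt, Finset.sum_range]
  obtain ⟨S, hS⟩ := exists_fin (fun p : Option (Fin (n + 1) × Fin N) =>
    p.elim (2 : K) (fun p => (q p.1).coeff p.2))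
  refine ⟨S, N, fun B => ?_⟩
  have hU : (Set.range fun k : ℕ => (2 : K) ^ k).Infinite := by
    refine Set.infinite_range_of_injective ?_
    intro a b hab
    have h1 : ((2 ^ a : ℕ) : K) = ((2 ^ b : ℕ) : K) := by
      push_cast
      exact hab
    exact Nat.pow_right_injective le_rfl (Nat.cast_injective h1)
  obtain ⟨t, ⟨c, rfl⟩, ht1, ht2⟩ := curve_unbounded q hnc _ hU B
  have hsum : (fun a => ∑ j : Fin N, (q a).coeff j * ((2 : K) ^ c) ^ (j : ℕ)) =
      fun a => (q a).eval ((2 : K) ^ c) := by
    funext a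
    exact (hqc a _).symm
  refine ⟨fun j a => (q a).coeff j * ((2 : K) ^ c) ^ (j : ℕ), ?_, ?_, ?_, ?_⟩
  · rw [hsum]
    exact ht1
  · intro k
    rw [hsum]
    have := MvPolynomial.comp_aeval_apply (R := K) q
      (Polynomial.aeval ((2 : K) ^ c) : Polynomial K →ₐ[K] K) (G k)
    rw [hq k, map_zero] at this
    rw [this, MvPolynomial.aeval_def, MvPolynomial.eval, MvPolynomial.coe_eval₂Hom]
    rfl
  · have h2 : ∀ w, w ∉ S → w (2 : K) = 1 := fun w hw => hS w hw none (by
      show (2 : K) ≠ 0
      exact two_ne_zero)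
    have hone : ∀ w, w ∉ S → ∀ p : Fin N × Fin (n + 1),
        (q p.2).coeff p.1 * ((2 : K) ^ c) ^ (p.1 : ℕ) ≠ 0 →
        w ((q p.2).coeff p.1 * ((2 : K) ^ c) ^ (p.1 : ℕ)) = 1 := by
      intro w hw p hp
      rw [map_mul, map_pow, map_pow, h2 w hw, one_pow, one_pow, mul_one]
      exact hS w hw (some (p.2, p.1)) (left_ne_zero_of_mul hp)
    rw [outside_eq S S _ hone, Finset.sdiff_self, Finset.sum_empty]
  · rw [hsum]
    exact ht2

end Run7.h128.AU
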