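import Pool.Agent.Run7.h128.AU.Pull

/-!
The one-parameter family of points through a sum of almost units.
-/

set_option autoImplicit false

namespace Run7.h128.AU

open NumberField IsDedekindDomain Height Filter Finset MvPolynomial
open Pool.Agent.W180.OP (Pl av wt fv_support_finite wt_nonneg)

variable {F : Type} [Field F] [NumberField F]
variable {ι κ : Type} [Fintype ι] [DecidableEq ι] [Fintype κ] [DecidableEq κ]

/-- the coefficients of the pulled back forms are nearly proportional -/
theorem coeff_rel (𝒰 : Ultrafilter ℕ) (A : ℕ → ℝ) (hA : ∀ s, 1 ≤ A s) (π : ι → κ) (e : ℕ)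
    (G : ℕ → MvPolynomial κ F) (hG : ∀ s, (G s).IsHomogeneous e)
    (hh : ∀ᶠ s in (𝒰 : Filter ℕ), coefHeight (G s) ≤ A s) (E E' : ι →₀ ℕ)
    (hE : ∀ᶠ s in (𝒰 : Filter ℕ), coeff E (pull π (G s)) ≠ 0) :
    Rel 𝒰 A (fun s => coeff E (pull π (G s))) (fun s => coeff E' (pull π (G s))) := by
  classical
  -- a coefficient which does not vanish
  obtain ⟨β₀, hβ₀⟩ : ∃ β₀ : κ →₀ ℕ, ∀ᶠ s in (𝒰 : Filter ℕ), coeff β₀ (G s) ≠ 0 := by
    by_contra hcon
    push Not at hcon
    have h1 : ∀ β : κ →₀ ℕ, ∀ᶠ s in (𝒰 : Filter ℕ), coeff β (G s) = 0 := hcon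
    have h2 : ∀ᶠ s in (𝒰 : Filter ℕ), ∀ β ∈ Ex κ e, coeff β (G s) = 0 := by
      rw [Filter.eventually_all_finset]
      exact fun β _ => h1 β
    obtain ⟨s, h3, h4⟩ := (hE.and h2).exists
    apply h3
    rw [coeff_pull π (hG s)]
    exact Finset.sum_eq_zero fun β hβ => by rw [h4 β hβ, zero_mul]
  have h1 : ∀ E : ι →₀ ℕ, Rel 𝒰 A (fun s => coeff E (pull π (G s))) (fun s => coeff β₀ (G s)) := by
    intro E
    have h2 : (fun s => coeff E (pull π (G s))) = fun s => ∑ β ∈ Ex κ e,
        coeff β (G s) * coeff E (pull π (monomial β (1 : F))) := by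
      funext s
      exact coeff_pull π (hG s) E
    rw [h2]
    refine Rel.sum hA _ _ _ fun β _ => ?_
    refine ⟨1 + logHeight₁ (coeff E (pull π (monomial β (1 : F)))), ?_⟩
    filter_upwards [hβ₀, hh] with s h3 h4
    have h5 := ratio_le (G s) β β₀ h3
    have h6 : coeff β (G s) * coeff E (pull π (monomial β (1 : F))) / coeff β₀ (G s) =
        coeff β (G s) / coeff β₀ (G s) * coeff E (pull π (monomial β (1 : F))) := by
      ring
    rw [h6]
    refine (logHeight₁_mul_le _ _).trans ?_
    have h7 := hA s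
    have h8 := zero_le_logHeight₁ (coeff E (pull π (monomial β (1 : F))))
    nlinarith
  exact (h1 E).trans (h1 E').symm hβ₀

/-- the monomials -/
noncomputable def mono (y : ι → ℕ → F) (E : ι →₀ ℕ) (s : ℕ) : F := ∏ i, y i s ^ (E i)

theorem key (𝒰 : Ultrafilter ℕ) (S : Finset (Pl F)) (hinf : ∀ w, Sum.inl w ∈ S) {m : ℕ}
    (e : Fin m → ℕ) (G : ℕ → Fin m → MvPolynomial κ F)
    (hG : ∀ s k, (G s k).IsHomogeneous (e k)) (π : ι → κ) (y : ι → ℕ → F) (A : ℕ → ℝ)
    (hA : ∀ s, 1 ≤ A s)
    (hh : ∀ᶠ s in (𝒰 : Filter ℕ), ∀ k, coefHeight (G s k) ≤ A s)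
    (ht : ∀ᶠ s in (𝒰 : Filter ℕ), ∀ i j, y i s ≠ 0 → y j s ≠ 0 → tau S (y i s / y j s) ≤ A s)
    (h0 : ∀ᶠ s in (𝒰 : Filter ℕ), ∀ k,
      eval (fun a => ∑ i ∈ univ.filter (fun i => π i = a), y i s) (G s k) = 0) :
    ∃ (I : Finset ι) (l : ι → ℕ), (∀ᶠ s in (𝒰 : Filter ℕ), ∀ i, y i s ≠ 0 ↔ i ∈ I) ∧
      (∀ᶠ s in (𝒰 : Filter ℕ), ∀ (t : F) (k : Fin m),
        eval (fun a => ∑ i ∈ univ.filter (fun i => π i = a), t ^ (l i) * y i s) (G s k) = 0) ∧
      ∀ i ∈ I, ∀ j ∈ I, l i = l j → Rel 𝒰 A (y i) (y j) := by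
  classical
  -- the support
  set I : Finset ι := univ.filter fun i => ∀ᶠ s in (𝒰 : Filter ℕ), y i s ≠ 0 with hI
  have hsupp : ∀ᶠ s in (𝒰 : Filter ℕ), ∀ i, y i s ≠ 0 ↔ i ∈ I := by
    rw [Filter.eventually_all]
    intro i
    by_cases hi : i ∈ I
    · filter_upwards [(Finset.mem_filter.1 hi).2] with s hs
      exact ⟨fun _ => hi, fun _ => hs⟩
    · have h1 : ∀ᶠ s in (𝒰 : Filter ℕ), y i s = 0 := by
        have h2 : ¬ ∀ᶠ s in (𝒰 : Filter ℕ), y i s ≠ 0 := fun h =>
          hi (Finset.mem_filter.2 ⟨Finset.mem_univ _, h⟩)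
        have h3 := Ultrafilter.eventually_not.2 h2
        filter_upwards [h3] with s hs
        exact not_not.1 hs
      filter_upwards [h1] with s hs
      exact ⟨fun h => absurd hs h, fun h => absurd h hi⟩
  have hyI : ∀ᶠ s in (𝒰 : Filter ℕ), ∀ i ∈ I, y i s ≠ 0 := by
    filter_upwards [hsupp] with s hs i hi
    exact (hs i).2 hi
  obtain ⟨l, hl1, hl2⟩ := exists_cone hA I y hyI
  refine ⟨I, l, hsupp, ?_, hl2⟩
  have hk : ∀ k : Fin m, ∀ᶠ s in (𝒰 : Filter ℕ), ∀ t : F,
      eval (fun a => ∑ i ∈ univ.filter (fun i => π i = a), t ^ (l i) * y i s) (G s k) = 0 := by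
    intro k
    -- the terms
    set z : (ι →₀ ℕ) → ℕ → F := fun E s => coeff E (pull π (G s k)) * mono y E s with hz
    set J : Finset (ι →₀ ℕ) := (Ex ι (e k)).filter fun E =>
      ∀ᶠ s in (𝒰 : Filter ℕ), z E s ≠ 0 with hJ
    have hzJ : ∀ᶠ s in (𝒰 : Filter ℕ), ∀ E : J, z E.1 s ≠ 0 := by
      rw [Filter.eventually_all]
      exact fun E => (Finset.mem_filter.1 E.2).2
    have hz0 : ∀ᶠ s in (𝒰 : Filter ℕ), ∀ E ∈ Ex ι (e k), E ∉ J → z E s = 0 := by
      rw [Filter.eventually_all_finset]
      intro E hE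
      by_cases hEJ : E ∈ J
      · exact Eventually.of_forall fun s h => absurd hEJ h
      · have h2 : ¬ ∀ᶠ s in (𝒰 : Filter ℕ), z E s ≠ 0 := fun h =>
          hEJ (Finset.mem_filter.2 ⟨hE, h⟩)
        filter_upwards [Ultrafilter.eventually_not.2 h2] with s hs _
        exact not_not.1 hs
    have hcE : ∀ E : J, ∀ᶠ s in (𝒰 : Filter ℕ), coeff E.1 (pull π (G s k)) ≠ 0 := by
      intro E
      filter_upwards [(Finset.mem_filter.1 E.2).2] with s hs
      exact left_ne_zero_of_mul hs
    have hmE : ∀ E : J, ∀ᶠ s in (𝒰 : Filter ℕ), mono y E.1 s ≠ 0 := by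
      intro E
      filter_upwards [(Finset.mem_filter.1 E.2).2] with s hs
      exact right_ne_zero_of_mul hs
    have hEI : ∀ E : J, ∀ i, i ∉ I → E.1 i = 0 := by
      intro E i hi
      by_contra hc
      obtain ⟨s, h1, h2⟩ := ((hmE E).and hsupp).exists
      apply h1
      have h3 : y i s = 0 := by
        by_contra h
        exact hi ((h2 i).1 h)
      exact Finset.prod_eq_zero (Finset.mem_univ i) (by rw [h3, zero_pow hc])
    have hdeg : ∀ E : J, ∑ i, E.1 i = e k := fun E => mem_Ex.1 (Finset.mem_filter.1 E.2).1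
    have hcr : ∀ E E' : J, Rel 𝒰 A (fun s => coeff E.1 (pull π (G s k)))
        (fun s => coeff E'.1 (pull π (G s k))) := fun E E' =>
      coeff_rel 𝒰 A hA π (e k) (fun s => G s k) (fun s => hG s k)
        (by filter_upwards [hh] with s hs; exact hs k) E.1 E'.1 (hcE E)
    -- the distances from the units
    have htau : ∃ C : ℝ, ∀ᶠ s in (𝒰 : Filter ℕ), ∀ E E' : J,
        tau S (z E.1 s / z E'.1 s) ≤ C * A s := by
      choose C hC using fun p : J × J => (hcr p.1 p.2).tau_le S hinf (hcE p.1) (hcE p.2)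
      have hall : ∀ᶠ s in (𝒰 : Filter ℕ), ∀ p : J × J,
          tau S (coeff p.1.1 (pull π (G s k)) / coeff p.2.1 (pull π (G s k))) ≤ C p * A s ∧
          coeff p.1.1 (pull π (G s k)) ≠ 0 ∧ mono y p.1.1 s ≠ 0 := by
        rw [Filter.eventually_all]
        intro p
        exact (hC p).and ((hcE p.1).and (hmE p.1))
      refine ⟨∑ p : J × J, |C p| + 2 * e k, ?_⟩
      filter_upwards [hall, ht, hsupp] with s h1 h2 h3 E E'
      have hA1 := hA s
      have h4 : z E.1 s / z E'.1 s = (coeff E.1 (pull π (G s k)) / coeff E'.1 (pull π (G s k))) *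
          (mono y E.1 s / mono y E'.1 s) := by
        rw [hz]
        exact mul_div_mul_comm _ _ _ _
      rw [h4]
      have hc1 := (h1 (E, E')).2.1
      have hc2 := (h1 (E', E)).2.1
      have hm1 := (h1 (E, E')).2.2
      have hm2 := (h1 (E', E)).2.2
      refine (tau_mul_le S hinf (div_ne_zero hc1 hc2) (div_ne_zero hm1 hm2)).trans ?_
      have h5 : C (E, E') ≤ ∑ p : J × J, |C p| := (le_abs_self _).trans
        (Finset.single_le_sum (f := fun p => |C p|) (fun _ _ => abs_nonneg _)
          (Finset.mem_univ (E, E')))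
      have h6 := (h1 (E, E')).1
      have h7 : tau S (mono y E.1 s / mono y E'.1 s) ≤ 2 * e k * A s := by
        by_cases hne : I.Nonempty
        · obtain ⟨i₀, hi₀⟩ := hne
          have hy0 : y i₀ s ≠ 0 := (h3 i₀).2 hi₀
          have hmono : ∀ E : J, mono y E.1 s = y i₀ s ^ (e k) *
              ∏ i ∈ I, (y i s / y i₀ s) ^ (E.1 i) := by
            intro E
            have h8 : mono y E.1 s = ∏ i ∈ I, y i s ^ (E.1 i) := by
              refine (Finset.prod_subset (Finset.subset_univ I) ?_).symm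
              intro i _ hi
              rw [hEI E i hi, pow_zero]
            have h9 : ∑ i ∈ I, E.1 i = e k := by
              rw [← hdeg E]
              refine Finset.sum_subset (Finset.subset_univ I) ?_
              intro i _ hi
              exact hEI E i hi
            rw [h8, ← h9, ← Finset.prod_pow_eq_pow_sum, ← Finset.prod_mul_distrib]
            refine Finset.prod_congr rfl fun i _ => ?_
            rw [← mul_pow, mul_div_cancel₀ _ hy0]
          have hR0 : ∀ E : J, ∏ i ∈ I, (y i s / y i₀ s) ^ (E.1 i) ≠ 0 := fun E =>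
            Finset.prod_ne_zero_iff.2 fun i hi =>
              pow_ne_zero _ (div_ne_zero ((h3 i).2 hi) hy0)
          have hR : ∀ E : J, tau S (∏ i ∈ I, (y i s / y i₀ s) ^ (E.1 i)) ≤ e k * A s := by
            intro E
            refine (tau_prod_le S hinf I _ fun i hi =>
              pow_ne_zero _ (div_ne_zero ((h3 i).2 hi) hy0)).trans ?_
            have h10 : ∀ i ∈ I, tau S ((y i s / y i₀ s) ^ (E.1 i)) ≤ (E.1 i : ℝ) * A s := by
              intro i hi
              refine (tau_pow_le S hinf (div_ne_zero ((h3 i).2 hi) hy0) _).trans ?_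
              exact mul_le_mul_of_nonneg_left (h2 i i₀ ((h3 i).2 hi) hy0) (Nat.cast_nonneg _)
            refine (Finset.sum_le_sum h10).trans (le_of_eq ?_)
            rw [← Finset.sum_mul]
            congr 1
            have h9 : ∑ i ∈ I, E.1 i = e k := by
              rw [← hdeg E]
              refine Finset.sum_subset (Finset.subset_univ I) ?_
              intro i _ hi
              exact hEI E i hi
            exact_mod_cast h9
          rw [hmono E, hmono E', mul_div_mul_left _ _ (pow_ne_zero _ hy0)]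
          refine (tau_div_le S hinf (hR0 E) (hR0 E')).trans ?_
          have := hR E
          have := hR E'
          linarith
        · have hz : ∀ E : J, mono y E.1 s = 1 := by
            intro E
            refine Finset.prod_eq_one fun i _ => ?_
            rw [hEI E i (fun hi => hne ⟨i, hi⟩), pow_zero]
          rw [hz E, hz E', div_one, tau_one]
          positivity
      nlinarith
    -- the clusters
    have hsum : ∀ᶠ s in (𝒰 : Filter ℕ), ∑ E : J, z E.1 s = 0 := by
      filter_upwards [h0, hz0] with s h1 h2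
      have h3 := h1 k
      rw [← eval_pull π (fun i => y i s), eval_homog (pull_homog π (hG s k))] at h3
      rw [← h3, Finset.sum_coe_sort J (fun E => z E s)]
      exact Finset.sum_subset (Finset.filter_subset _ _) fun E hE hEJ => h2 E hE hEJ
    have hcl := clusters 𝒰 S hinf (fun E : J => z E.1) A hA hzJ htau hsum
      (fun E : J => ∑ i, E.1 i * l i) (by
        intro E E' hR
        have h1 : ∑ i, ((E.1 i : ℤ) - E'.1 i) * (l i : ℤ) = 0 := by
          refine hl1 (fun i => (E.1 i : ℤ) - E'.1 i) ?_ ?_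
          · obtain ⟨C, hC⟩ := hR
            obtain ⟨C', hC'⟩ := hcr E' E
            refine ⟨C + C', ?_⟩
            filter_upwards [hC, hC', hyI, hcE E, hcE E', hmE E, hmE E'] with
              s h2 h3 h4 h5 h6 h7 h8
            have h9 : ∏ i ∈ I, y i s ^ ((E.1 i : ℤ) - E'.1 i) =
                (z E.1 s / z E'.1 s) *
                (coeff E'.1 (pull π (G s k)) / coeff E.1 (pull π (G s k))) := by
              have h10 : ∀ E : J, mono y E.1 s = ∏ i ∈ I, y i s ^ (E.1 i) := by
                intro E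
                refine (Finset.prod_subset (Finset.subset_univ I) ?_).symm
                intro i _ hi
                rw [hEI E i hi, pow_zero]
              have h11 : ∏ i ∈ I, y i s ^ ((E.1 i : ℤ) - E'.1 i) =
                  mono y E.1 s / mono y E'.1 s := by
                rw [h10 E, h10 E', ← Finset.prod_div_distrib]
                refine Finset.prod_congr rfl fun i hi => ?_
                rw [zpow_sub₀ (h4 i hi), zpow_natCast, zpow_natCast]
              rw [h11, hz]
              field_simp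
            rw [h9, add_mul]
            exact (logHeight₁_mul_le _ _).trans (add_le_add h2 h3)
          · rw [Finset.sum_sub_distrib]
            have h2 := hdeg E
            have h3 := hdeg E'
            have h4 : ∑ i, (E.1 i : ℤ) = e k := by exact_mod_cast h2
            have h5 : ∑ i, (E'.1 i : ℤ) = e k := by exact_mod_cast h3
            rw [h4, h5, sub_self]
        have h2 : ∑ i, ((E.1 i : ℤ)) * (l i : ℤ) = ∑ i, ((E'.1 i : ℤ)) * (l i : ℤ) := by
          have h3 : ∑ i, ((E.1 i : ℤ) - E'.1 i) * (l i : ℤ) =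
              ∑ i, ((E.1 i : ℤ)) * (l i : ℤ) - ∑ i, ((E'.1 i : ℤ)) * (l i : ℤ) := by
            rw [← Finset.sum_sub_distrib]
            exact Finset.sum_congr rfl fun i _ => by ring
          rw [h3] at h1
          linarith
        exact_mod_cast h2)
    filter_upwards [hcl, hz0] with s h1 h2 t
    rw [← eval_pull π (fun i => t ^ (l i) * y i s), eval_homog (pull_homog π (hG s k))]
    have h3 : ∀ E ∈ Ex ι (e k), coeff E (pull π (G s k)) * ∏ i, (t ^ (l i) * y i s) ^ (E i) =
        t ^ (∑ i, E i * l i) * z E s := by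
      intro E _
      have h4 : ∏ i, (t ^ (l i) * y i s) ^ (E i) = t ^ (∑ i, E i * l i) * mono y E s := by
        unfold mono
        rw [← Finset.prod_pow_eq_pow_sum, ← Finset.prod_mul_distrib]
        refine Finset.prod_congr rfl fun i _ => ?_
        rw [mul_pow, ← pow_mul, mul_comm (l i)]
      rw [h4, hz]
      ring
    rw [Finset.sum_congr rfl h3]
    have h5 : ∑ E ∈ Ex ι (e k), t ^ (∑ i, E i * l i) * z E s =
        ∑ E ∈ J, t ^ (∑ i, E i * l i) * z E s := by
      refine (Finset.sum_subset (Finset.filter_subset _ _) ?_).symm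
      intro E hE hEJ
      rw [h2 E hE hEJ, mul_zero]
    rw [h5, ← Finset.sum_coe_sort J (fun E => t ^ (∑ i, E i * l i) * z E s),
      ← Finset.sum_fiberwise_of_maps_to (s := (univ : Finset J))
        (t := univ.image fun E : J => ∑ i, E.1 i * l i)
        (g := fun E : J => ∑ i, E.1 i * l i)
        (fun E _ => Finset.mem_image_of_mem _ (Finset.mem_univ _))]
    refine Finset.sum_eq_zero fun c _ => ?_
    have h6 : ∑ E ∈ univ.filter (fun E : J => ∑ i, E.1 i * l i = c),
        t ^ (∑ i, E.1 i * l i) * z E.1 s = t ^ c *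
        ∑ E ∈ univ.filter (fun E : J => ∑ i, E.1 i * l i = c), z E.1 s := by
      rw [Finset.mul_sum]
      refine Finset.sum_congr rfl fun E hE => ?_
      rw [(Finset.mem_filter.1 hE).2]
    rw [h6]
    have h7 : ∑ E ∈ univ.filter (fun E : J => ∑ i, E.1 i * l i = c), z E.1 s = 0 := by
      convert h1 c
    rw [h7, mul_zero]
  have := Filter.eventually_all.2 hk
  filter_upwards [this] with s hs t k
  exact hs k t

end Run7.h128.AU
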