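import Pool.Agent.Run7.h128.AU.Outside

/-!
Sums of almost units on projective varieties: the dichotomy.
-/

set_option autoImplicit false
set_option linter.unusedSectionVars false

namespace Run7.h128.AU

open NumberField IsDedekindDomain Height Filter Finset MvPolynomial

variable {K : Type} [Field K] [NumberField K]

/-- the parametrized curve `T ↦ (∑ j, y_(j, a) T ^ (l_(j, a)))_a` -/
noncomputable def curve {n r : ℕ} (l : Fin r → Fin (n + 1) → ℕ) (y : Fin r → Fin (n + 1) → K)
    (a : Fin (n + 1)) : Polynomial K :=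
  ∑ j, Polynomial.C (y j a) * Polynomial.X ^ (l j a)

theorem curve_eval {n r : ℕ} (l : Fin r → Fin (n + 1) → ℕ) (y : Fin r → Fin (n + 1) → K)
    (a : Fin (n + 1)) (t : K) : (curve l y a).eval t = ∑ j, t ^ (l j a) * y j a := by
  unfold curve
  rw [Polynomial.eval_finsetSum]
  refine Finset.sum_congr rfl fun j _ => ?_
  rw [Polynomial.eval_mul, Polynomial.eval_C, Polynomial.eval_pow, Polynomial.eval_X, mul_comm]

theorem curve_coeff {n r : ℕ} (l : Fin r → Fin (n + 1) → ℕ) (y : Fin r → Fin (n + 1) → K)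
    (a : Fin (n + 1)) (k : ℕ) : (curve l y a).coeff k =
      ∑ j ∈ univ.filter (fun j => l j a = k), y j a := by
  unfold curve
  rw [Polynomial.finsetSum_coeff, Finset.sum_filter]
  refine Finset.sum_congr rfl fun j _ => ?_
  rw [Polynomial.coeff_C_mul, Polynomial.coeff_X_pow]
  by_cases h : l j a = k
  · rw [if_pos h, if_pos h.symm, mul_one]
  · rw [if_neg h, if_neg (Ne.symm h), mul_zero]

theorem fiber_sum {n r : ℕ} (g : Fin r × Fin (n + 1) → K) (a : Fin (n + 1)) :
    ∑ i ∈ univ.filter (fun i : Fin r × Fin (n + 1) => i.2 = a), g i = ∑ j, g (j, a) := by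
  rw [Finset.sum_filter, Fintype.sum_prod_type]
  refine Finset.sum_congr rfl fun j _ => ?_
  rw [Finset.sum_ite_eq' univ a]
  simp

theorem aeval_curve {n r : ℕ} (l : Fin r → Fin (n + 1) → ℕ) (y : Fin r → Fin (n + 1) → K)
    (G : MvPolynomial (Fin (n + 1)) K)
    (h : ∀ t : K, eval (fun a => ∑ j, t ^ (l j a) * y j a) G = 0) :
    aeval (curve l y) G = 0 := by
  apply Polynomial.funext
  intro t
  rw [Polynomial.eval_zero, ← h t]
  have := MvPolynomial.comp_aeval_apply (R := K) (curve l y)
    (Polynomial.aeval t : Polynomial K →ₐ[K] K) G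
  rw [Polynomial.coe_aeval_eq_eval] at this
  rw [this, MvPolynomial.aeval_def, MvPolynomial.eval, MvPolynomial.coe_eval₂Hom]
  congr 1
  funext a
  exact curve_eval l y a t

/-- the bound for the height if the curve is constant -/
theorem height_of_const {n r : ℕ} (l : Fin r → Fin (n + 1) → ℕ) (y : Fin r → Fin (n + 1) → K)
    (hx : (fun a => ∑ j, y j a) ≠ 0)
    (hc : ∀ a b, curve l y a * Polynomial.C (∑ j, y j b) = curve l y b *
      Polynomial.C (∑ j, y j a)) (B : ℝ)
    (hB : ∀ i i' : Fin r × Fin (n + 1), y i.1 i.2 ≠ 0 → y i'.1 i'.2 ≠ 0 →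
      l i.1 i.2 = l i'.1 i'.2 → logHeight₁ (y i.1 i.2 / y i'.1 i'.2) ≤ B) :
    logHeight (fun a => ∑ j, y j a) ≤
      (n + 1) * (totalWeight K * Real.log r + r * max B 0) := by
  classical
  obtain ⟨b₀, hb₀⟩ := Function.ne_iff.1 hx
  simp only [Pi.zero_apply] at hb₀
  -- a degree which occurs
  obtain ⟨k, hk⟩ : ∃ k, (curve l y b₀).coeff k ≠ 0 := by
    by_contra h
    push Not at h
    have h0 : curve l y b₀ = 0 := Polynomial.ext fun k => by rw [h k, Polynomial.coeff_zero]
    apply hb₀
    have h1 := curve_eval l y b₀ 1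
    rw [h0, Polynomial.eval_zero] at h1
    simp only [one_pow, one_mul] at h1
    exact h1.symm
  obtain ⟨j₀, hj₀, hj₀'⟩ : ∃ j₀, l j₀ b₀ = k ∧ y j₀ b₀ ≠ 0 := by
    by_contra h
    push Not at h
    apply hk
    rw [curve_coeff]
    exact Finset.sum_eq_zero fun j hj => h j (Finset.mem_filter.1 hj).2
  set c : K := (∑ j, y j b₀) / (curve l y b₀).coeff k with hcdef
  have hc0 : c ≠ 0 := div_ne_zero hb₀ hk
  have hxc : (fun a => ∑ j, y j a) = (c * y j₀ b₀) •
      fun a => (curve l y a).coeff k / y j₀ b₀ := by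
    funext a
    have h1 := congrArg (fun p => Polynomial.coeff p k) (hc a b₀)
    simp only [Polynomial.coeff_mul_C] at h1
    rw [Pi.smul_apply, smul_eq_mul, hcdef]
    field_simp
    rw [mul_comm ((curve l y b₀).coeff k)] at *
    linear_combination -h1
  rw [hxc, logHeight_smul_eq_logHeight _ (mul_ne_zero hc0 hj₀')]
  refine (logHeight_le_sum _).trans ?_
  have hW : (0 : ℝ) ≤ totalWeight K := Nat.cast_nonneg _
  have hr : (0 : ℝ) ≤ r := Nat.cast_nonneg _
  have hterm : ∀ a, logHeight₁ ((curve l y a).coeff k / y j₀ b₀) ≤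
      totalWeight K * Real.log r + r * max B 0 := by
    intro a
    rw [curve_coeff, Finset.sum_div]
    refine (logHeight₁_sum_le _ _).trans ?_
    refine add_le_add ?_ ?_
    · refine mul_le_mul_of_nonneg_left ?_ hW
      by_cases h0 : (univ.filter fun j => l j a = k).card = 0
      · rw [h0, Nat.cast_zero, Real.log_zero]
        exact Real.log_natCast_nonneg r
      · refine Real.log_le_log (by exact_mod_cast Nat.pos_of_ne_zero h0) ?_
        have := Finset.card_le_univ (univ.filter fun j => l j a = k)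
        rw [Fintype.card_fin] at this
        exact_mod_cast this
    · have h1 : ∀ j ∈ univ.filter (fun j => l j a = k), logHeight₁ (y j a / y j₀ b₀) ≤
          max B 0 := by
        intro j hj
        by_cases h0 : y j a = 0
        · rw [h0, zero_div, logHeight₁_zero]
          exact le_max_right _ _
        · exact (hB (j, a) (j₀, b₀) h0 hj₀' (by
            show l j a = l j₀ b₀
            rw [(Finset.mem_filter.1 hj).2, hj₀])).trans (le_max_left _ _)
      refine (Finset.sum_le_sum h1).trans ?_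
      rw [Finset.sum_const, nsmul_eq_mul]
      refine mul_le_mul_of_nonneg_right ?_ (le_max_right _ _)
      have := Finset.card_le_univ (univ.filter fun j => l j a = k)
      rw [Fintype.card_fin] at this
      exact_mod_cast this
  refine (Finset.sum_le_sum fun a _ => hterm a).trans (le_of_eq ?_)
  rw [Finset.sum_const, Finset.card_univ, Fintype.card_fin, nsmul_eq_mul]
  push_cast
  ring

/-- **The dichotomy.** -/
theorem dichotomy (S : Finset (FinitePlace K)) (n r m : ℕ) (e : Fin m → ℕ) :
    ∃ (C : ℝ) (D : ℕ), ∀ G : Fin m → MvPolynomial (Fin (n + 1)) K,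
      (∀ k, (G k).IsHomogeneous (e k)) → ∀ y : Fin r → Fin (n + 1) → K,
      (fun a => ∑ j, y j a) ≠ 0 → (∀ k, eval (fun a => ∑ j, y j a) (G k) = 0) →
      logHeight (fun a => ∑ j, y j a) ≤ C * (1 + ∑ k, coefHeight (G k) +
        outside S fun q : Fin r × Fin (n + 1) => y q.1 q.2) ∨
      ∃ l : Fin r → Fin (n + 1) → ℕ, (∀ j a, l j a ≤ D) ∧
        (∀ k, aeval (curve l y) (G k) = 0) ∧
        ∃ a b, curve l y a * Polynomial.C (∑ j, y j b) ≠
          curve l y b * Polynomial.C (∑ j, y j a) := by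
  classical
  by_contra hcon
  push Not at hcon
  choose G hG y hx h0 hC hD using fun s : ℕ => hcon (s : ℝ) s
  set 𝒰 : Ultrafilter ℕ := hyperfilter ℕ with h𝒰
  have hlarge : ∀ N : ℕ, ∀ᶠ s in (𝒰 : Filter ℕ), N ≤ s := fun N =>
    (Nat.hyperfilter_le_atTop (Filter.eventually_ge_atTop N))
  set A : ℕ → ℝ := fun s => 1 + ∑ k, coefHeight (G s k) +
    outside S fun q : Fin r × Fin (n + 1) => y s q.1 q.2 with hAdef
  have hch : ∀ s k, 0 ≤ coefHeight (G s k) := fun s k => logHeight_nonneg _
  have hA : ∀ s, 1 ≤ A s := fun s => by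
    have h1 := outside_nonneg S fun q : Fin r × Fin (n + 1) => y s q.1 q.2
    have h2 : 0 ≤ ∑ k, coefHeight (G s k) := Finset.sum_nonneg fun k _ => hch s k
    show 1 ≤ 1 + ∑ k, coefHeight (G s k) + outside S _
    linarith
  obtain ⟨I, l, hI, hl1, hl2⟩ := key 𝒰 (plS S) (plS_inf S) e G (fun s k => hG s k)
    (Prod.snd : Fin r × Fin (n + 1) → Fin (n + 1)) (fun q s => y s q.1 q.2) A hA
    (Eventually.of_forall fun s k => by
      have h1 := outside_nonneg S fun q : Fin r × Fin (n + 1) => y s q.1 q.2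
      have h2 := Finset.single_le_sum (f := fun k => coefHeight (G s k))
        (fun k _ => hch s k) (Finset.mem_univ k)
      show coefHeight (G s k) ≤ 1 + ∑ k, coefHeight (G s k) + outside S _
      linarith)
    (Eventually.of_forall fun s i j hi hj => by
      have h1 := tau_le_outside S (fun q : Fin r × Fin (n + 1) => y s q.1 q.2) i j hi hj
      have h2 : 0 ≤ ∑ k, coefHeight (G s k) := Finset.sum_nonneg fun k _ => hch s k
      refine h1.trans ?_
      show outside S _ ≤ 1 + ∑ k, coefHeight (G s k) + outside S _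
      linarith)
    (Eventually.of_forall fun s k => by
      have h1 : (fun a => ∑ i ∈ univ.filter (fun i : Fin r × Fin (n + 1) => i.2 = a),
          y s i.1 i.2) = fun a => ∑ j, y s j a := by
        funext a
        exact fiber_sum (fun q => y s q.1 q.2) a
      show eval (fun a => ∑ i ∈ univ.filter (fun i : Fin r × Fin (n + 1) => i.2 = a),
          y s i.1 i.2) (G s k) = 0
      rw [h1]
      exact h0 s k)
  -- the constants of the relations
  have hrel : ∀ p : (Fin r × Fin (n + 1)) × (Fin r × Fin (n + 1)), ∃ C : ℝ,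
      p.1 ∈ I → p.2 ∈ I → l p.1 = l p.2 → ∀ᶠ s in (𝒰 : Filter ℕ),
        logHeight₁ (y s p.1.1 p.1.2 / y s p.2.1 p.2.2) ≤ C * A s := by
    intro p
    by_cases h : p.1 ∈ I ∧ p.2 ∈ I ∧ l p.1 = l p.2
    · obtain ⟨C, hC⟩ := hl2 p.1 h.1 p.2 h.2.1 h.2.2
      exact ⟨C, fun _ _ _ => hC⟩
    · exact ⟨0, fun h1 h2 h3 => absurd ⟨h1, h2, h3⟩ h⟩
  choose Cp hCp using hrel
  have hall : ∀ᶠ s in (𝒰 : Filter ℕ), ∀ p : (Fin r × Fin (n + 1)) × (Fin r × Fin (n + 1)),
      p.1 ∈ I → p.2 ∈ I → l p.1 = l p.2 →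
        logHeight₁ (y s p.1.1 p.1.2 / y s p.2.1 p.2.2) ≤ Cp p * A s := by
    rw [Filter.eventually_all]
    intro p
    by_cases h : p.1 ∈ I ∧ p.2 ∈ I ∧ l p.1 = l p.2
    · filter_upwards [hCp p h.1 h.2.1 h.2.2] with s hs _ _ _
      exact hs
    · exact Eventually.of_forall fun s h1 h2 h3 => absurd ⟨h1, h2, h3⟩ h
  set B : ℝ := ∑ p, |Cp p| with hB
  have hB0 : 0 ≤ B := Finset.sum_nonneg fun p _ => abs_nonneg _
  have hBp : ∀ p, Cp p ≤ B := fun p => (le_abs_self _).trans
    (Finset.single_le_sum (f := fun p => |Cp p|) (fun _ _ => abs_nonneg _) (Finset.mem_univ p))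
  set W : ℝ := totalWeight K * Real.log r with hW
  have hW0 : 0 ≤ W := mul_nonneg (Nat.cast_nonneg _) (Real.log_natCast_nonneg r)
  set C1 : ℝ := (n + 1) * (W + r * B) with hC1
  obtain ⟨N, hN⟩ := exists_nat_gt C1
  have hlN := hlarge (max N (univ.sup l))
  obtain ⟨s, h1, h2, h3, h4⟩ := (hlN.and (hI.and (hl1.and hall))).exists
  -- the curve is constant
  have hbound := hD s (fun j a => l (j, a)) (fun j a => by
    have h5 : l (j, a) ≤ univ.sup l := Finset.le_sup (Finset.mem_univ _)
    exact h5.trans ((le_max_right _ _).trans h1)) (fun k => by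
      refine aeval_curve _ _ _ fun t => ?_
      have h5 := h3 t k
      have h6 : (fun a => ∑ i ∈ univ.filter (fun i : Fin r × Fin (n + 1) => i.2 = a),
          t ^ (l i) * y s i.1 i.2) = fun a => ∑ j, t ^ (l (j, a)) * y s j a := by
        funext a
        exact fiber_sum (fun q => t ^ (l q) * y s q.1 q.2) a
      rw [← h6]
      exact h5)
  have h5 := height_of_const (fun j a => l (j, a)) (y s) (hx s) hbound (B * A s) (by
    intro i i' hi hi' hii
    have h6 := h4 (i, i') ((h2 i).1 hi) ((h2 i').1 hi') hii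
    have h7 := hA s
    refine h6.trans (mul_le_mul_of_nonneg_right (hBp _) (by linarith)))
  have hA1 := hA s
  rw [max_eq_left (mul_nonneg hB0 (by linarith)), ← hW] at h5
  have h6 : logHeight (fun a => ∑ j, y s j a) ≤ C1 * A s := by
    refine h5.trans ?_
    rw [hC1]
    have hn : (0 : ℝ) ≤ n := Nat.cast_nonneg n
    have h7 : W + r * (B * A s) ≤ (W + r * B) * A s := by
      have h8 : W ≤ W * A s := le_mul_of_one_le_right hW0 hA1
      linarith
    calc (n + 1 : ℝ) * (W + r * (B * A s)) ≤ (n + 1) * ((W + r * B) * A s) :=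
          mul_le_mul_of_nonneg_left h7 (by linarith)
      _ = (n + 1) * (W + r * B) * A s := by ring
  have h7 := hC s
  have h8 : (N : ℝ) ≤ s := by exact_mod_cast (le_max_left _ _).trans h1
  have h9 : C1 * A s < s * A s := mul_lt_mul_of_pos_right (by linarith) (by linarith)
  have h10 : (s : ℝ) * A s < logHeight (fun a => ∑ j, y s j a) := h7
  linarith

end Run7.h128.AU
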