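import Pool.Agent.Run7.h128.AU.Tau

/-!
Nondegenerate sums of almost units: a consequence of the subspace theorem.
-/

set_option autoImplicit false

namespace Run7.h128.AU

open NumberField IsDedekindDomain Height Filter Finset
open Pool.Agent.W180.OP (Pl av wt fv_support_finite wt_nonneg)
open Pool.Agent.NH29.GN (ext MovSStm movs gal U1.prod_formula)
open Pool.Agent.NH29.GN.MovD

variable {F : Type} [Field F] [NumberField F]

/-- the local inequality at one point -/
theorem local_ineq (S : Finset (Pl F)) (hinf : ∀ w, Sum.inl w ∈ S) {N : ℕ}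
    (m : Fin (N + 1) → F) (hm : ∀ p, m p ≠ 0) (X : Fin (N + 1) → F)
    (h0 : ∀ q, ext m X q ≠ 0) (A : ℝ)
    (ht : ∀ p q, tau S (ext m X p / ext m X q) ≤ A) :
    ∃ r : Pl F → Option (Fin (N + 1)), (∀ v p, r v = some p → m p ≠ 0) ∧
      (N + 2) * logHeight X - (N + 2) ^ 3 * A ≤ ∑ v ∈ S, wt v * ∑ q ∈ Finset.univ.erase (r v),
        (Real.log (⨆ p, av v (X p)) - Real.log (av v (ext m X q))) := by
  classical
  obtain ⟨T, hST, hTi, hT⟩ := exists_big S hinf (fun q => ext m X q) h0
  have hX0 : ∀ p, X p ≠ 0 := fun p => h0 (some p)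
  set x : Pl F → ℝ := fun v => Real.log (sz v X) with hx
  have hXh : logHeight X = ∑ v ∈ T, wt v * x v :=
    hgt T hTi X hX0 fun v hv => sz_one _ _ fun p => hT _ hv (some p)
  have hxle : ∀ v p, Real.log (av v (X p)) ≤ x v := fun v p =>
    Real.log_le_log ((av v).pos (hX0 p)) (le_sz v X p)
  choose p0 hp0 using fun v : Pl F => exists_sz v X
  have hx2 : ∀ v, x v = Real.log (av v (X (p0 v))) := fun v => by
    rw [hx]
    show Real.log (sz v X) = _
    rw [hp0 v]
  refine ⟨fun v => some (p0 v), fun v p _ => hm p, ?_⟩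
  -- the dropped term vanishes
  have e1 : ∀ v, ∑ q ∈ Finset.univ.erase (some (p0 v) : Option (Fin (N + 1))),
      (Real.log (⨆ p, av v (X p)) - Real.log (av v (ext m X q))) =
      ∑ q, (x v - Real.log (av v (ext m X q))) := by
    intro v
    rw [Finset.sum_erase_eq_sub (Finset.mem_univ _)]
    have : Real.log (⨆ p, av v (X p)) - Real.log (av v (ext m X (some (p0 v)))) = 0 := by
      show Real.log (sz v X) - Real.log (av v (X (p0 v))) = 0
      rw [hp0 v, sub_self]
    rw [this, sub_zero]
    rfl
  simp only [e1]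
  -- the sum over all places
  have e2 : ∑ v ∈ T, wt v * ∑ q, (x v - Real.log (av v (ext m X q))) =
      (N + 2) * logHeight X := by
    simp only [Finset.mul_sum, mul_sub]
    rw [Finset.sum_comm]
    have : ∀ q : Option (Fin (N + 1)), ∑ v ∈ T, (wt v * x v -
        wt v * Real.log (av v (ext m X q))) = logHeight X := by
      intro q
      rw [Finset.sum_sub_distrib, ← hXh, U1.prod_formula T hTi (ext m X q) (h0 q)
        (fun v hv => hT _ hv q), sub_zero]
    rw [Finset.sum_congr rfl fun q _ => this q, Finset.sum_const, Finset.card_univ,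
      Fintype.card_option, Fintype.card_fin, nsmul_eq_mul]
    push_cast
    ring
  -- outside `S`
  have e3 : ∑ v ∈ T \ S, wt v * ∑ q, (x v - Real.log (av v (ext m X q))) ≤
      (N + 2) ^ 3 * A := by
    have h1 : ∀ v ∈ T \ S, wt v * ∑ q, (x v - Real.log (av v (ext m X q))) ≤
        ∑ q : Option (Fin (N + 1)), ∑ p : Option (Fin (N + 1)),
          wt v * |Real.log (av v (ext m X p / ext m X q))| := by
      intro v _
      rw [Finset.mul_sum]
      refine Finset.sum_le_sum fun q _ => ?_
      have h2 : x v - Real.log (av v (ext m X q)) =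
          Real.log (av v (ext m X (some (p0 v)) / ext m X q)) := by
        rw [map_div₀, Real.log_div ((av v).pos (h0 _)).ne' ((av v).pos (h0 _)).ne', hx2 v]
        rfl
      rw [h2]
      refine le_trans (mul_le_mul_of_nonneg_left (le_abs_self _) (wt_nonneg v)) ?_
      exact Finset.single_le_sum (f := fun p : Option (Fin (N + 1)) =>
        wt v * |Real.log (av v (ext m X p / ext m X q))|)
        (fun p _ => mul_nonneg (wt_nonneg v) (abs_nonneg _)) (Finset.mem_univ (some (p0 v)))
    refine (Finset.sum_le_sum h1).trans ?_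
    rw [Finset.sum_comm]
    have h3 : ∀ q : Option (Fin (N + 1)), ∑ v ∈ T \ S, ∑ p : Option (Fin (N + 1)),
        wt v * |Real.log (av v (ext m X p / ext m X q))| ≤ (N + 2) * A := by
      intro q
      rw [Finset.sum_comm]
      have h4 : ∀ p : Option (Fin (N + 1)), ∑ v ∈ T \ S,
          wt v * |Real.log (av v (ext m X p / ext m X q))| ≤ A := by
        intro p
        rw [← tau_eq S T _ (fun v hv => by rw [map_div₀, hT v hv p, hT v hv q, div_one])]
        exact ht p q
      refine (Finset.sum_le_sum fun p _ => h4 p).trans (le_of_eq ?_)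
      rw [Finset.sum_const, Finset.card_univ, Fintype.card_option, Fintype.card_fin,
        nsmul_eq_mul]
      push_cast
      ring
    refine (Finset.sum_le_sum fun q _ => h3 q).trans ?_
    rw [Finset.sum_const, Finset.card_univ, Fintype.card_option, Fintype.card_fin, nsmul_eq_mul]
    push_cast
    have hA : 0 ≤ A := (tau_nonneg S _).trans (ht none none)
    have hN : (0 : ℝ) ≤ N := Nat.cast_nonneg N
    nlinarith [mul_nonneg hN hA, mul_nonneg (mul_nonneg hN hN) hA,
      mul_nonneg (mul_nonneg (mul_nonneg hN hN) hN) hA]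
  have e4 := Finset.sum_sdiff (f := fun v => wt v * ∑ q, (x v - Real.log (av v (ext m X q)))) hST
  rw [e2] at e4
  linarith

/-- **Nondegenerate sums of almost units.** -/
theorem nondeg (𝒰 : Ultrafilter ℕ) (S : Finset (Pl F)) (hinf : ∀ w, Sum.inl w ∈ S) {N : ℕ}
    (m : Fin (N + 1) → F) (hm : ∀ p, m p ≠ 0) (X : ℕ → Fin (N + 1) → F) (A : ℕ → ℝ)
    (hA : ∀ s, 1 ≤ A s)
    (hind : ∀ d : Fin (N + 1) → F, d ≠ 0 → ∀ᶠ s in (𝒰 : Filter ℕ), ∑ p, d p * X s p ≠ 0)
    (ht : ∀ᶠ s in (𝒰 : Filter ℕ), ∀ p q, tau S (ext m (X s) p / ext m (X s) q) ≤ A s) :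
    ∃ C : ℝ, ∀ᶠ s in (𝒰 : Filter ℕ), ∀ p q,
      logHeight₁ (ext m (X s) p / ext m (X s) q) ≤ C * A s := by
  classical
  have hX0 : ∀ᶠ s in (𝒰 : Filter ℕ), ∀ q, ext m (X s) q ≠ 0 := by
    rw [Filter.eventually_all]
    intro q
    rcases q with _ | p
    · have := hind m (fun h => hm 0 (congrFun h 0))
      filter_upwards [this] with s hs
      exact hs
    · have := hind (Pi.single p 1) (fun h => by
        have := congrFun h p
        simp at this)
      filter_upwards [this] with s hs
      show X s p ≠ 0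
      rw [Finset.sum_eq_single p] at hs
      · simpa using hs
      · intro b _ hb
        rw [Pi.single_eq_of_ne hb, zero_mul]
      · intro h
        exact absurd (Finset.mem_univ _) h
  -- bound for the height of `X`
  have hbd : ∃ C : ℝ, ∀ᶠ s in (𝒰 : Filter ℕ), logHeight (X s) ≤ C * A s := by
    by_cases hT : Tendsto (fun s => logHeight (X s)) (𝒰 : Filter ℕ) atTop
    · refine ⟨2 * (N + 2) ^ 3, ?_⟩
      filter_upwards [hX0, ht, movs gal F 𝒰 S N m X hT hind (1 / 2) (by norm_num)] with s h1 h2 h3
      obtain ⟨r, hr1, hr2⟩ := local_ineq S hinf m hm (X s) h1 (A s) h2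
      have h4 := hr2.trans (h3 r hr1)
      linarith
    · rw [tendsto_atTop, not_forall] at hT
      obtain ⟨B, hB⟩ := hT
      have hB' : ∀ᶠ s in (𝒰 : Filter ℕ), logHeight (X s) < B := by
        have := Ultrafilter.eventually_not.2 hB
        filter_upwards [this] with s hs
        exact not_le.1 hs
      refine ⟨max B 0, ?_⟩
      filter_upwards [hB'] with s h2
      have h3 := hA s
      have h4 : B ≤ max B 0 := le_max_left _ _
      have h5 : 0 ≤ max B 0 := le_max_right _ _
      nlinarith
  obtain ⟨C, hC⟩ := hbd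
  have hC0 : 0 ≤ max C 0 := le_max_right _ _
  set W : ℝ := ((totalWeight F : ℕ) : ℝ) with hW
  have hW0 : 0 ≤ W := by
    rw [hW]
    exact Nat.cast_nonneg _
  set C1 : ℝ := max C 0 + (W * Real.log (N + 1) + ∑ p, (logHeight₁ (m p) + max C 0)) with hC1
  have hs1 : 0 ≤ ∑ p, (logHeight₁ (m p) + max C 0) :=
    Finset.sum_nonneg fun p _ => add_nonneg (zero_le_logHeight₁ _) hC0
  have hlog : 0 ≤ Real.log ((N : ℝ) + 1) := Real.log_nonneg (by
    have : (0 : ℝ) ≤ N := Nat.cast_nonneg N
    linarith)
  refine ⟨C1, ?_⟩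
  filter_upwards [hX0, hC] with s h0 h1
  have hA1 := hA s
  have hC2 : logHeight (X s) ≤ max C 0 * A s :=
    h1.trans (mul_le_mul_of_nonneg_right (le_max_left _ _) (by linarith))
  -- the coordinates
  have hpq : ∀ p q : Fin (N + 1), logHeight₁ (X s p / X s q) ≤ max C 0 * A s := by
    intro p q
    rw [logHeight₁_div_eq_logHeight]
    have h2 := logHeight_comp_le ![p, q] (X s)
    have h3 : X s ∘ ![p, q] = ![X s p, X s q] := by
      funext i
      fin_cases i <;> rfl
    rw [h3] at h2
    exact h2.trans hC2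
  have hz : ∀ q : Fin (N + 1), logHeight₁ (ext m (X s) none / X s q) ≤
      (W * Real.log (N + 1) + ∑ p, (logHeight₁ (m p) + max C 0)) * A s := by
    intro q
    have h2 : ext m (X s) none / X s q = ∑ p, m p * (X s p / X s q) := by
      show (∑ p, m p * X s p) / X s q = _
      rw [Finset.sum_div]
      exact Finset.sum_congr rfl fun p _ => by rw [mul_div_assoc]
    rw [h2]
    refine (logHeight₁_sum_le _ _).trans ?_
    rw [Finset.card_univ, Fintype.card_fin, add_mul]
    refine add_le_add ?_ ?_
    · rw [← hW]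
      push_cast
      exact le_mul_of_one_le_right (mul_nonneg hW0 hlog) hA1
    · rw [Finset.sum_mul]
      refine Finset.sum_le_sum fun p _ => ?_
      refine (logHeight₁_mul_le _ _).trans ?_
      have h3 := hpq p q
      have h4 := zero_le_logHeight₁ (m p)
      nlinarith
  have hfin : ∀ p q, logHeight₁ (ext m (X s) p / ext m (X s) q) ≤ C1 * A s := by
    have hA0 : 0 ≤ A s := by linarith
    have hb1 : max C 0 * A s ≤ C1 * A s := by
      refine mul_le_mul_of_nonneg_right ?_ hA0
      rw [hC1]
      have := mul_nonneg hW0 hlog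
      linarith
    have hb2 : (W * Real.log (N + 1) + ∑ p, (logHeight₁ (m p) + max C 0)) * A s ≤ C1 * A s := by
      refine mul_le_mul_of_nonneg_right ?_ hA0
      rw [hC1]
      linarith
    intro p q
    rcases p with _ | p <;> rcases q with _ | q
    · rw [div_self (h0 none), logHeight₁_one]
      have : 0 ≤ C1 := by
        rw [hC1]
        have := mul_nonneg hW0 hlog
        linarith
      exact mul_nonneg this hA0
    · exact (hz q).trans hb2
    · have h2 := (hz p).trans hb2
      rw [← logHeight₁_inv, inv_div]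
      exact h2
    · exact (hpq p q).trans hb1
  exact hfin

end Run7.h128.AU
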