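import Pool.Agent.Run7.h128.AU.Key
import Pool.Agent.TH409.SH.Fin2

/-!
The size of a family of numbers outside a finite set of places.
-/

set_option autoImplicit false

namespace Run7.h128.AU

open NumberField IsDedekindDomain Height Filter Finset MvPolynomial
open Pool.Agent.W180.OP (Pl av wt fv_support_finite wt_nonneg)

variable {K : Type} [Field K] [NumberField K]

/-- the size of the nonzero members of the family `y` outside `S`: the sum over all finite places
`w` not in `S` and all `i` with `y i ≠ 0` of `log (max_j |y j|_w / |y i|_w)` -/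
noncomputable def outside (S : Finset (FinitePlace K)) {ι : Type} [Fintype ι] (y : ι → K) : ℝ :=
  open Classical in ∑ᶠ w : FinitePlace K, if w ∈ S then 0 else
    ∑ i, if y i = 0 then 0 else Real.log ((⨆ j, w (y j)) / w (y i))

/-- all infinite places and the places of `S` -/
noncomputable def plS (S : Finset (FinitePlace K)) : Finset (Pl K) :=
  (univ : Finset (InfinitePlace K)).disjSum
    (S.map (FinitePlace.equivHeightOneSpectrum (K := K)).toEmbedding)

theorem plS_inf (S : Finset (FinitePlace K)) (w : InfinitePlace K) : Sum.inl w ∈ plS S := by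
  unfold plS
  simp

theorem plS_fin (S : Finset (FinitePlace K)) (w : FinitePlace K) :
    (Sum.inr (FinitePlace.equivHeightOneSpectrum w) : Pl K) ∈ plS S ↔ w ∈ S := by
  unfold plS
  rw [Finset.inr_mem_disjSum, Finset.mem_map_equiv, Equiv.symm_apply_apply]

theorem av_fin (w : FinitePlace K) (a : K) :
    av (Sum.inr (FinitePlace.equivHeightOneSpectrum w) : Pl K) a = w a := by
  have h : (FinitePlace.equivHeightOneSpectrum (K := K)).symm
      (FinitePlace.equivHeightOneSpectrum w) = w := Equiv.symm_apply_apply _ _
  conv_rhs => rw [← h]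
  rfl

open Classical in
theorem tau_fin (S : Finset (FinitePlace K)) (a : K) :
    tau (plS S) a = ∑ᶠ w : FinitePlace K, if w ∈ S then 0 else |Real.log (w a)| := by
  unfold tau
  rw [← finsum_mem_univ]
  rw [finsum_mem_inter_support_eq _ _ (Set.range (Sum.inr : HeightOneSpectrum (𝓞 K) → Pl K))]
  · rw [finsum_mem_range Sum.inr_injective,
      ← finsum_comp_equiv (FinitePlace.equivHeightOneSpectrum (K := K))]
    refine finsum_congr fun w => ?_
    simp only [plS_fin]
    by_cases h : w ∈ S
    · rw [if_pos h, if_pos h]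
    · rw [if_neg h, if_neg h, av_fin]
      show (1 : ℝ) * _ = _
      rw [one_mul]
  · ext v
    simp only [Set.univ_inter, Set.mem_inter_iff, Function.mem_support, Set.mem_range]
    constructor
    · intro hv
      rcases v with w | w
      · exact absurd (if_pos (plS_inf S w)) hv
      · exact ⟨⟨w, rfl⟩, hv⟩
    · exact fun h => h.2

theorem exists_fin {ι : Type*} [Finite ι] (a : ι → K) :
    ∃ T : Finset (FinitePlace K), ∀ w, w ∉ T → ∀ i, a i ≠ 0 → w (a i) = 1 := by
  classical
  have hf : (⋃ i, {w : FinitePlace K | a i ≠ 0 ∧ w (a i) ≠ 1}).Finite := by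
    refine Set.finite_iUnion fun i => ?_
    by_cases h : a i = 0
    · have : {w : FinitePlace K | a i ≠ 0 ∧ w (a i) ≠ 1} = ∅ := by
        ext w
        simp [h]
      rw [this]
      exact Set.finite_empty
    · have h1 := supp_fin h
      have h2 := h1.preimage (f := fun w : FinitePlace K =>
        (Sum.inr (FinitePlace.equivHeightOneSpectrum w) : Pl K)) (by
          intro w _ w' _ hww
          exact (FinitePlace.equivHeightOneSpectrum (K := K)).injective (Sum.inr_injective hww))
      refine h2.subset ?_
      intro w hw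
      show av (Sum.inr (FinitePlace.equivHeightOneSpectrum w) : Pl K) (a i) ≠ 1
      rw [av_fin]
      exact hw.2
  refine ⟨hf.toFinset, fun w hw i hi => ?_⟩
  by_contra hc
  exact hw (hf.mem_toFinset.2 (Set.mem_iUnion.2 ⟨i, hi, hc⟩))

section

variable {ι : Type} [Fintype ι]

theorem le_sup (w : FinitePlace K) (y : ι → K) (i : ι) : w (y i) ≤ ⨆ j, w (y j) :=
  le_ciSup (f := fun i => w (y i)) (Set.finite_range _).bddAbove i

theorem sup_one (w : FinitePlace K) (y : ι → K) (h : ∀ i, y i ≠ 0 → w (y i) = 1)
    (i : ι) (hi : y i ≠ 0) : ⨆ j, w (y j) = 1 := by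
  have : Nonempty ι := ⟨i⟩
  refine le_antisymm (ciSup_le fun j => ?_) ?_
  · by_cases hj : y j = 0
    · rw [hj, map_zero]
      exact zero_le_one
    · exact (h j hj).le
  · rw [← h i hi]
    exact le_sup w y i

open Classical in
theorem outside_eq (S T : Finset (FinitePlace K)) (y : ι → K)
    (hT : ∀ w, w ∉ T → ∀ i, y i ≠ 0 → w (y i) = 1) :
    outside S y = ∑ w ∈ T \ S, ∑ i, if y i = 0 then 0 else
      Real.log ((⨆ j, w (y j)) / w (y i)) := by
  unfold outside
  rw [finsum_eq_sum_of_support_subset (s := T \ S)]
  · refine Finset.sum_congr rfl fun v hv => ?_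
    rw [if_neg (Finset.mem_sdiff.1 hv).2]
  · intro v hv
    rw [Function.mem_support] at hv
    rw [Finset.mem_coe, Finset.mem_sdiff]
    by_cases h : v ∈ S
    · rw [if_pos h] at hv
      exact absurd rfl hv
    · refine ⟨?_, h⟩
      by_contra hc
      rw [if_neg h] at hv
      apply hv
      refine Finset.sum_eq_zero fun i _ => ?_
      by_cases hi : y i = 0
      · rw [if_pos hi]
      · rw [if_neg hi, sup_one v y (hT v hc) i hi, hT v hc i hi, div_one, Real.log_one]

theorem term_nonneg (w : FinitePlace K) (y : ι → K) (i : ι) (hi : y i ≠ 0) :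
    0 ≤ Real.log ((⨆ j, w (y j)) / w (y i)) := by
  refine Real.log_nonneg ?_
  have h1 : 0 < w (y i) := w.1.pos hi
  rw [le_div_iff₀ h1, one_mul]
  exact le_sup w y i

theorem outside_nonneg (S : Finset (FinitePlace K)) (y : ι → K) : 0 ≤ outside S y := by
  classical
  unfold outside
  refine finsum_nonneg fun w => ?_
  split
  · exact le_rfl
  · refine Finset.sum_nonneg fun i _ => ?_
    split
    · exact le_rfl
    · exact term_nonneg w y i (by assumption)

theorem tau_le_outside (S : Finset (FinitePlace K)) (y : ι → K) (i j : ι) (hi : y i ≠ 0)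
    (hj : y j ≠ 0) : tau (plS S) (y i / y j) ≤ outside S y := by
  classical
  by_cases hij : i = j
  · subst hij
    rw [div_self hi, tau_one]
    exact outside_nonneg S y
  obtain ⟨T, hT⟩ := exists_fin y
  rw [outside_eq S T y hT, tau_fin]
  rw [finsum_eq_sum_of_support_subset (s := T \ S)]
  · refine Finset.sum_le_sum fun w hw => ?_
    rw [if_neg (Finset.mem_sdiff.1 hw).2]
    have hpi : 0 < w (y i) := w.1.pos hi
    have hpj : 0 < w (y j) := w.1.pos hj
    have hM : 0 < ⨆ k, w (y k) := hpi.trans_le (le_sup w y i)
    have hnn : ∀ k, 0 ≤ if y k = 0 then 0 else Real.log ((⨆ j, w (y j)) / w (y k)) := by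
      intro k
      split
      · exact le_rfl
      · exact term_nonneg w y k (by assumption)
    have h1 : Real.log ((⨆ k, w (y k)) / w (y i)) + Real.log ((⨆ k, w (y k)) / w (y j)) ≤
        ∑ k, if y k = 0 then 0 else Real.log ((⨆ j, w (y j)) / w (y k)) := by
      have h2 := Finset.sum_le_sum_of_subset_of_nonneg (Finset.subset_univ ({i, j} : Finset ι))
        (f := fun k => if y k = 0 then 0 else Real.log ((⨆ j, w (y j)) / w (y k)))
        (fun k _ _ => hnn k)
      rw [Finset.sum_pair hij, if_neg hi, if_neg hj] at h2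
      exact h2
    refine le_trans ?_ h1
    have h2 := term_nonneg w y i hi
    have h3 := term_nonneg w y j hj
    rw [Real.log_div hM.ne' hpi.ne'] at h2 ⊢
    rw [Real.log_div hM.ne' hpj.ne'] at h3 ⊢
    rw [map_div₀, Real.log_div hpi.ne' hpj.ne', abs_le]
    constructor <;> linarith
  · intro w hw
    rw [Function.mem_support] at hw
    rw [Finset.mem_coe, Finset.mem_sdiff]
    by_cases h : w ∈ S
    · rw [if_pos h] at hw
      exact absurd rfl hw
    · refine ⟨?_, h⟩
      by_contra hc
      rw [if_neg h] at hw
      apply hw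
      rw [map_div₀, hT w hc i hi, hT w hc j hj, div_one, Real.log_one, abs_zero]

end

end Run7.h128.AU
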