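import Pool.Agent.Run7.h128.AU.Cone

/-!
Forms in sums of variables.
-/

set_option autoImplicit false

namespace Run7.h128.AU

open NumberField IsDedekindDomain Height Filter Finset MvPolynomial

variable {F : Type} [Field F]

/-- the height of a polynomial: the height of the vector of its coefficients -/
noncomputable def coefHeight {F : Type} [Field F] [NumberField F] {σ : Type}
    (G : MvPolynomial σ F) : ℝ := logHeight fun β : G.support => coeff β.1 G

theorem ratio_le {F : Type} [Field F] [NumberField F] {σ : Type} (G : MvPolynomial σ F)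
    (β β₀ : σ →₀ ℕ) (h : coeff β₀ G ≠ 0) :
    logHeight₁ (coeff β G / coeff β₀ G) ≤ coefHeight G := by
  by_cases h0 : coeff β G = 0
  · rw [h0, zero_div, logHeight₁_zero]
    exact logHeight_nonneg _
  · rw [logHeight₁_div_eq_logHeight]
    have h2 := logHeight_comp_le (K := F)
      ![(⟨β, mem_support_iff.2 h0⟩ : G.support), ⟨β₀, mem_support_iff.2 h⟩]
      (fun β : G.support => coeff β.1 G)
    refine le_trans (le_of_eq ?_) h2
    congr 1
    funext i
    fin_cases i <;> rfl

variable {ι α : Type} [Fintype ι] [DecidableEq α] [DecidableEq ι]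

/-- substitute sums of variables for the variables -/
noncomputable def pull (π : ι → α) : MvPolynomial α F →ₐ[F] MvPolynomial ι F :=
  aeval fun a => ∑ i ∈ univ.filter (fun i => π i = a), X i

omit [DecidableEq ι] in
theorem eval_pull (π : ι → α) (y : ι → F) (P : MvPolynomial α F) :
    eval y (pull π P) = eval (fun a => ∑ i ∈ univ.filter (fun i => π i = a), y i) P := by
  unfold pull
  induction P using MvPolynomial.induction_on with
  | C a => simp
  | add p q hp hq => rw [map_add, map_add, map_add, hp, hq]
  | mul_X p i hp => rw [map_mul, map_mul, map_mul, hp, aeval_X, eval_X, map_sum]; simp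

omit [DecidableEq ι] in
theorem pull_homog (π : ι → α) {P : MvPolynomial α F} {e : ℕ} (h : P.IsHomogeneous e) :
    (pull π P).IsHomogeneous e := by
  have := h.aeval (n := 1) (fun a => ∑ i ∈ univ.filter (fun i => π i = a),
    (X i : MvPolynomial ι F)) (fun a => IsHomogeneous.sum _ _ _ fun i _ => isHomogeneous_X _ _)
  rwa [one_mul] at this

/-- the exponents of degree `e` -/
def Ex (ι : Type) [Fintype ι] [DecidableEq ι] (e : ℕ) : Finset (ι →₀ ℕ) :=
  (univ : Finset ι).finsuppAntidiag e

theorem mem_Ex {e : ℕ} {E : ι →₀ ℕ} : E ∈ Ex ι e ↔ ∑ i, E i = e := by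
  unfold Ex
  rw [Finset.mem_finsuppAntidiag]
  simp

theorem eval_homog {P : MvPolynomial ι F} {e : ℕ} (h : P.IsHomogeneous e) (y : ι → F) :
    eval y P = ∑ E ∈ Ex ι e, coeff E P * ∏ i, y i ^ (E i) := by
  rw [eval_eq']
  refine Finset.sum_subset ?_ ?_
  · intro E hE
    rw [mem_Ex]
    have h1 : coeff E P ≠ 0 := mem_support_iff.1 hE
    have h2 : E.degree = e := by
      by_contra hc
      exact h1 (h.coeff_eq_zero hc)
    rw [← h2, Finsupp.degree_eq_sum]
  · intro E _ hE
    rw [notMem_support_iff.1 hE, zero_mul]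

/-- the coefficients of the pulled back form -/
theorem coeff_pull {κ : Type} [Fintype κ] [DecidableEq κ] (π : ι → κ) {P : MvPolynomial κ F}
    {e : ℕ} (h : P.IsHomogeneous e) (E : ι →₀ ℕ) :
    coeff E (pull π P) = ∑ β ∈ Ex κ e, coeff β P * coeff E (pull π (monomial β (1 : F))) := by
  have h1 : P = ∑ β ∈ Ex κ e, C (coeff β P) * monomial β (1 : F) := by
    have h2 : P = ∑ β ∈ P.support, monomial β (coeff β P) := P.as_sum
    rw [Finset.sum_subset (s₂ := Ex κ e)] at h2
    · conv_lhs => rw [h2]
      refine Finset.sum_congr rfl fun β _ => ?_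
      rw [C_mul_monomial, mul_one]
    · intro β hβ
      rw [mem_Ex]
      have h1 : coeff β P ≠ 0 := mem_support_iff.1 hβ
      have h2 : β.degree = e := by
        by_contra hc
        exact h1 (h.coeff_eq_zero hc)
      rw [← h2, Finsupp.degree_eq_sum]
    · intro β _ hβ
      rw [notMem_support_iff.1 hβ, map_zero]
  conv_lhs => rw [h1]
  rw [map_sum, coeff_sum]
  refine Finset.sum_congr rfl fun β _ => ?_
  have : pull π (C (coeff β P) : MvPolynomial κ F) = C (coeff β P) := (pull π).commutes _
  rw [map_mul, this, coeff_C_mul]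

end Run7.h128.AU
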