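import Pool.Agent.NH29.GN.MovS
import Pool.Agent.NH29.GN.MovD
import Pool.Agent.NH29.GN.Gal

/-!
The distance of an element of a number field from the `S`-units.
-/

set_option autoImplicit false

namespace Run7.h128.AU

open NumberField IsDedekindDomain Height Filter Finset
open Pool.Agent.W180.OP (Pl av wt fv_support_finite wt_nonneg)
open Pool.Agent.NH29.GN.MovD

variable {F : Type} [Field F] [NumberField F]

/-- the distance of `a` from the `S`-units -/
noncomputable def tau (S : Finset (Pl F)) (a : F) : ℝ :=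
  open Classical in ∑ᶠ v : Pl F, if v ∈ S then 0 else wt v * |Real.log (av v a)|

theorem supp_fin {a : F} (ha : a ≠ 0) : {v : Pl F | av v a ≠ 1}.Finite := by
  have h1 : {v : Pl F | av v a ≠ 1} ⊆ Set.range Sum.inl ∪
      Sum.inr '' {v : HeightOneSpectrum (𝓞 F) | av (Sum.inr v : Pl F) a ≠ 1} := by
    intro v hv
    rcases v with w | w
    · exact Or.inl ⟨w, rfl⟩
    · exact Or.inr ⟨w, hv, rfl⟩
  exact (Set.Finite.union (Set.finite_range _) ((fv_support_finite ha).image _)).subset h1

/-- a finite set of places outside which the members of a family are units -/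
theorem exists_big {ι : Type*} [Finite ι] (S : Finset (Pl F)) (hinf : ∀ w, Sum.inl w ∈ S)
    (a : ι → F) (ha : ∀ i, a i ≠ 0) :
    ∃ T : Finset (Pl F), S ⊆ T ∧ (∀ w, Sum.inl w ∈ T) ∧ ∀ v, v ∉ T → ∀ i, av v (a i) = 1 := by
  classical
  have hf : (⋃ i, {v : Pl F | av v (a i) ≠ 1}).Finite := Set.finite_iUnion fun i => supp_fin (ha i)
  refine ⟨S ∪ hf.toFinset, Finset.subset_union_left,
    fun w => Finset.mem_union_left _ (hinf w), ?_⟩
  intro v hv i
  rw [Finset.mem_union, not_or, Set.Finite.mem_toFinset] at hv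
  by_contra hc
  exact hv.2 (Set.mem_iUnion.2 ⟨i, hc⟩)

open Classical in
theorem tau_eq (S T : Finset (Pl F)) (a : F) (hT : ∀ v, v ∉ T → av v a = 1) :
    tau S a = ∑ v ∈ T \ S, wt v * |Real.log (av v a)| := by
  unfold tau
  rw [finsum_eq_sum_of_support_subset (s := T \ S)]
  · refine Finset.sum_congr rfl fun v hv => ?_
    rw [if_neg (Finset.mem_sdiff.1 hv).2]
  · intro v hv
    rw [Function.mem_support] at hv
    rw [Finset.mem_coe, Finset.mem_sdiff]
    by_cases h : v ∈ S
    · rw [if_pos h] at hv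
      exact absurd rfl hv
    · refine ⟨?_, h⟩
      by_contra hc
      rw [if_neg h, hT v hc, Real.log_one, abs_zero, mul_zero] at hv
      exact hv rfl

theorem tau_nonneg (S : Finset (Pl F)) (a : F) : 0 ≤ tau S a := by
  classical
  unfold tau
  refine finsum_nonneg fun v => ?_
  split
  · exact le_rfl
  · exact mul_nonneg (wt_nonneg v) (abs_nonneg _)

theorem tau_mul_le (S : Finset (Pl F)) (hinf : ∀ w, Sum.inl w ∈ S) {a b : F} (ha : a ≠ 0)
    (hb : b ≠ 0) : tau S (a * b) ≤ tau S a + tau S b := by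
  classical
  obtain ⟨T, _, _, hT⟩ := exists_big S hinf ![a, b] (by
    intro i
    fin_cases i
    · exact ha
    · exact hb)
  have h1 : ∀ v, v ∉ T → av v a = 1 := fun v hv => hT v hv 0
  have h2 : ∀ v, v ∉ T → av v b = 1 := fun v hv => hT v hv 1
  rw [tau_eq S T a h1, tau_eq S T b h2, tau_eq S T (a * b) (fun v hv => by
    rw [map_mul, h1 v hv, h2 v hv, one_mul]), ← Finset.sum_add_distrib]
  refine Finset.sum_le_sum fun v _ => ?_
  rw [← mul_add]
  refine mul_le_mul_of_nonneg_left ?_ (wt_nonneg v)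
  rw [map_mul, Real.log_mul ((av v).pos ha).ne' ((av v).pos hb).ne']
  exact abs_add_le _ _

theorem tau_inv (S : Finset (Pl F)) (a : F) : tau S a⁻¹ = tau S a := by
  unfold tau
  refine finsum_congr fun v => ?_
  rw [map_inv₀, Real.log_inv, abs_neg]

theorem tau_le_height (S : Finset (Pl F)) (hinf : ∀ w, Sum.inl w ∈ S) {a : F} (ha : a ≠ 0) :
    tau S a ≤ 2 * logHeight₁ a := by
  classical
  obtain ⟨T, hST, hTi, hT⟩ := exists_big S hinf (fun _ : Fin 1 => a) (fun _ => ha)
  rw [tau_eq S T a (fun v hv => hT v hv 0), ← sum_abs T hTi a ha (fun v hv => hT _ hv 0)]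
  exact Finset.sum_le_sum_of_subset_of_nonneg Finset.sdiff_subset
    fun v _ _ => mul_nonneg (wt_nonneg v) (abs_nonneg _)

theorem tau_div_le (S : Finset (Pl F)) (hinf : ∀ w, Sum.inl w ∈ S) {a b : F} (ha : a ≠ 0)
    (hb : b ≠ 0) : tau S (a / b) ≤ tau S a + tau S b := by
  rw [div_eq_mul_inv, ← tau_inv S b]
  exact tau_mul_le S hinf ha (inv_ne_zero hb)

theorem tau_one (S : Finset (Pl F)) : tau S 1 = 0 := by
  unfold tau
  simp

theorem tau_pow_le (S : Finset (Pl F)) (hinf : ∀ w, Sum.inl w ∈ S) {a : F} (ha : a ≠ 0)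
    (n : ℕ) : tau S (a ^ n) ≤ n * tau S a := by
  induction n with
  | zero => simp [tau_one]
  | succ n ih =>
    rw [pow_succ]
    refine (tau_mul_le S hinf (pow_ne_zero _ ha) ha).trans ?_
    push_cast
    linarith

theorem tau_prod_le (S : Finset (Pl F)) (hinf : ∀ w, Sum.inl w ∈ S) {ι : Type*}
    (s : Finset ι) (a : ι → F) (ha : ∀ i ∈ s, a i ≠ 0) :
    tau S (∏ i ∈ s, a i) ≤ ∑ i ∈ s, tau S (a i) := by
  classical
  induction s using Finset.induction_on with
  | empty => simp [tau_one]
  | insert j s hj ih =>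
    rw [Finset.prod_insert hj, Finset.sum_insert hj]
    refine (tau_mul_le S hinf (ha j (Finset.mem_insert_self _ _))
      (Finset.prod_ne_zero_iff.2 fun i hi => ha i (Finset.mem_insert_of_mem hi))).trans ?_
    have := ih fun i hi => ha i (Finset.mem_insert_of_mem hi)
    linarith

/-- the height of a vector is at most the sum of the heights of the coordinates -/
theorem logHeight_le_sum {ι : Type} [Fintype ι] (x : ι → F) :
    logHeight x ≤ ∑ i, logHeight₁ (x i) := by
  classical
  have h := logHeight_fun_prod_eq (K := F) (α := ι) (ι := fun _ => Fin 2)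
    (x := fun i => ![x i, 1]) (fun i h => by
      have := congrFun h 1
      simp at this)
  have h2 := logHeight_comp_le (K := F)
    (fun i : ι => (fun j => if j = i then 0 else 1 : (a : ι) → Fin 2))
    (fun I : (a : ι) → Fin 2 => ∏ a, (![x a, 1] : Fin 2 → F) (I a))
  have h3 : ((fun I : (a : ι) → Fin 2 => ∏ a, (![x a, 1] : Fin 2 → F) (I a)) ∘
      (fun i : ι => (fun j => if j = i then 0 else 1 : (a : ι) → Fin 2))) = x := by
    funext i
    show ∏ a, (![x a, 1] : Fin 2 → F) (if a = i then 0 else 1) = x i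
    rw [Finset.prod_eq_single i]
    · simp
    · intro b _ hb
      simp [hb]
    · intro hi
      exact absurd (Finset.mem_univ _) hi
  rw [h3] at h2
  refine h2.trans (le_of_eq ?_)
  rw [h]
  refine Finset.sum_congr rfl fun i _ => ?_
  rw [logHeight₁_eq_logHeight]

end Run7.h128.AU
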